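import Mathlib
import Pool.Agent.H319R3.GV.Core

/-!
Stability near strong solutions with a constant that depends only on `∫ ‖∇u‖⁴ / n³`.
-/

set_option linter.unusedSectionVars false

open MeasureTheory Set Filter Topology Metric
open scoped InnerProductSpace NNReal ENNReal

namespace Pool.Agent.H319R3.GW

open H772R2.NSR (Frame grad_unique prim_cont young4)
open H772R2.NSG
open Pool.Agent.H319R3.GV

/-- Gronwall inequality with an integrable weight. -/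
theorem gron_L1 {T : ℝ} (hT : 0 ≤ T) {l b : ℝ → ℝ} {a : ℝ} (ha : 0 ≤ a)
    (hl : ContinuousOn l (Icc 0 T)) (hl0 : ∀ t ∈ Icc 0 T, 0 ≤ l t)
    (hb : Integrable b (volume.restrict (Ioc 0 T)))
    (hb0 : ∀ᵐ s ∂(volume.restrict (Ioc 0 T)), 0 ≤ b s)
    (h : ∀ t ∈ Icc 0 T, l t ≤ a + ∫ s in (0 : ℝ)..t, b s * l s) {t : ℝ} (ht : t ∈ Icc 0 T) :
    l t ≤ Real.exp (∫ s in (0 : ℝ)..T, b s) * a := by
  obtain ⟨M, hM⟩ := (isCompact_Icc.image_of_continuousOn hl).isBounded.exists_norm_le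
  have hM' : ∀ t ∈ Icc 0 T, l t ≤ M := fun t ht => (Real.le_norm_self _).trans (hM _ ⟨t, ht, rfl⟩)
  have hM0 : 0 ≤ M := (norm_nonneg _).trans (hM _ ⟨0, ⟨le_rfl, hT⟩, rfl⟩)
  have key : ∀ ε : ℝ, 0 < ε →
      l t ≤ Real.exp ((∫ s in (0 : ℝ)..T, b s) + ε) * (a + M * ε) := by
    intro ε hε
    obtain ⟨g, -, hg1, hg2, hg3⟩ := hb.exists_hasCompactSupport_integral_sub_le hε
    let w : ℝ → ℝ := fun s => max (g s) 0
    have hwc : Continuous w := hg2.max continuous_const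
    have hw0 : ∀ s, 0 ≤ w s := fun s => le_max_right _ _
    have hwi : Integrable w (volume.restrict (Ioc 0 T)) :=
      (mem_cont (p := 1) hwc.continuousOn).integrable le_rfl
    have hbw : ∀ᵐ s ∂(volume.restrict (Ioc 0 T)), |b s - w s| ≤ ‖b s - g s‖ := by
      filter_upwards [hb0] with s hs
      have := abs_max_sub_max_le_abs (b s) (g s) 0
      rw [max_eq_left hs] at this
      rw [Real.norm_eq_abs]
      exact this
    have hd : Integrable (fun s => |b s - w s|) (volume.restrict (Ioc 0 T)) := (hb.sub hwi).abs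
    have hde : ∫ s in Ioc 0 T, |b s - w s| ≤ ε := by
      refine le_trans (integral_mono_ae hd (hb.sub hg3).norm hbw) hg1
    have hdt : ∀ t ∈ Icc 0 T, ∫ s in (0 : ℝ)..t, |b s - w s| ≤ ε := by
      intro t ht
      rw [intervalIntegral.integral_of_le ht.1]
      refine le_trans (setIntegral_mono_set hd (Eventually.of_forall fun s => abs_nonneg _)
        (Ioc_subset_Ioc_right ht.2).eventuallyLE) hde
    have hbl : Integrable (fun s => b s * l s) (volume.restrict (Ioc 0 T)) := by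
      refine (hb.norm.mul_const M).mono' (hb.aestronglyMeasurable.mul
        (mem_cont (p := 1) hl).aestronglyMeasurable) ?_
      filter_upwards [ae_restrict_mem measurableSet_Ioc] with s hs
      rw [norm_mul]
      gcongr
      exact hM _ ⟨s, Ioc_subset_Icc_self hs, rfl⟩
    have hwl : Integrable (fun s => w s * l s) (volume.restrict (Ioc 0 T)) :=
      (mem_cont (p := 1) (hwc.continuousOn.mul hl)).integrable le_rfl
    have h1 : ∀ t ∈ Icc 0 T, l t ≤ (a + M * ε) + ∫ s in (0 : ℝ)..t, w s * l s := by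
      intro t ht
      have h2 : ∫ s in (0 : ℝ)..t, b s * l s
          ≤ ∫ s in (0 : ℝ)..t, (w s * l s + M * |b s - w s|) := by
        refine intervalIntegral.integral_mono_on ht.1 (ii_of_int hbl le_rfl ht.1 ht.2)
          ((ii_of_int hwl le_rfl ht.1 ht.2).add
            ((ii_of_int hd le_rfl ht.1 ht.2).const_mul _)) ?_
        intro s hs
        have hs' : s ∈ Icc 0 T := ⟨hs.1, hs.2.trans ht.2⟩
        have h3 : (b s - w s) * l s ≤ |b s - w s| * M :=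
          (le_abs_self _).trans (by
            rw [abs_mul, abs_of_nonneg (hl0 s hs')]
            exact mul_le_mul_of_nonneg_left (hM' s hs') (abs_nonneg _))
        linarith
      rw [intervalIntegral.integral_add (ii_of_int hwl le_rfl ht.1 ht.2)
        ((ii_of_int hd le_rfl ht.1 ht.2).const_mul _), intervalIntegral.integral_const_mul] at h2
      have h4 := h t ht
      have h5 := mul_le_mul_of_nonneg_left (hdt t ht) hM0
      linarith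
    have h6 := gron_int hT hl hl0 hwc.continuousOn (fun t _ => hw0 t) h1 ht
    have h7 : ∫ s in (0 : ℝ)..T, w s ≤ (∫ s in (0 : ℝ)..T, b s) + ε := by
      have h8 : ∫ s in (0 : ℝ)..T, w s ≤ ∫ s in (0 : ℝ)..T, (b s + |b s - w s|) := by
        refine intervalIntegral.integral_mono_on hT (ii_of_int hwi le_rfl hT le_rfl)
          ((ii_of_int hb le_rfl hT le_rfl).add (ii_of_int hd le_rfl hT le_rfl)) ?_
        intro s _
        have := neg_abs_le (b s - w s)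
        linarith
      rw [intervalIntegral.integral_add (ii_of_int hb le_rfl hT le_rfl)
        (ii_of_int hd le_rfl hT le_rfl)] at h8
      have := hdt T ⟨hT, le_rfl⟩
      linarith
    refine h6.trans ?_
    have : 0 ≤ a + M * ε := by positivity
    gcongr
  have hc : Continuous fun ε : ℝ => Real.exp ((∫ s in (0 : ℝ)..T, b s) + ε) * (a + M * ε) := by
    fun_prop
  have h1 : Tendsto (fun ε : ℝ => Real.exp ((∫ s in (0 : ℝ)..T, b s) + ε) * (a + M * ε))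
      (𝓝[>] 0) (𝓝 (Real.exp ((∫ s in (0 : ℝ)..T, b s) + 0) * (a + M * 0))) :=
    (hc.tendsto 0).mono_left nhdsWithin_le_nhds
  simp only [add_zero, mul_zero] at h1
  refine ge_of_tendsto h1 ?_
  filter_upwards [self_mem_nhdsWithin] with ε hε
  exact key ε hε

variable {H K : Type*} [NormedAddCommGroup H] [InnerProductSpace ℝ H] [CompleteSpace H]
  [NormedAddCommGroup K] [InnerProductSpace ℝ K] [CompleteSpace K]

variable {W : Submodule ℝ (H × K)} {m : H → K} {C : ℝ} {ν T : ℝ}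

theorem pointwise' (Fr : Frame W m C) (hν : 0 < ν) {v vb : H} {z zb f fb : K} {a ab Z : ℝ}
    (hp : (v, z) ∈ W) (hq : (vb, zb) ∈ W) (ha : ν ≤ a) (hZ : ‖zb‖ ≤ Z) :
    ⟪f, z⟫_ℝ - a * ‖z‖ ^ 2 + ⟪fb, zb⟫_ℝ - ab * ‖zb‖ ^ 2 - ⟪fb - ab • zb + m vb, z⟫_ℝ
      - ⟪f - a • z + m v, zb⟫_ℝ
      ≤ -(ν / 2) * ‖z - zb‖ ^ 2 + (2 / ν * ‖f - fb‖ ^ 2 + 2 / ν * Z ^ 2 * (a - ab) ^ 2)
        + 64 * C ^ 2 * ‖zb‖ ^ 4 / a ^ 3 * ‖v - vb‖ ^ 2 := by
  have ha0 : 0 < a := hν.trans_le ha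
  have hZ0 : 0 ≤ Z := (norm_nonneg _).trans hZ
  have hC := Fr.C0
  have o1 : ⟪m v, z⟫_ℝ = 0 := Fr.ortho _ hp
  have o2 : ⟪m vb, zb⟫_ℝ = 0 := Fr.ortho _ hq
  have an : ⟪m v - m vb, z - zb⟫_ℝ = -⟪m (v - vb), zb⟫_ℝ := Fr.anti _ hp _ hq
  have e : ⟪f, z⟫_ℝ - a * ‖z‖ ^ 2 + ⟪fb, zb⟫_ℝ - ab * ‖zb‖ ^ 2 - ⟪fb - ab • zb + m vb, z⟫_ℝ
      - ⟪f - a • z + m v, zb⟫_ℝ
      = -a * ‖z - zb‖ ^ 2 + ⟪f - fb, z - zb⟫_ℝ - (a - ab) * ⟪zb, z - zb⟫_ℝ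
        - ⟪m (v - vb), zb⟫_ℝ := by
    have e1 : ‖z - zb‖ ^ 2 = ‖z‖ ^ 2 - 2 * ⟪z, zb⟫_ℝ + ‖zb‖ ^ 2 := norm_sub_sq_real z zb
    rw [e1, ← sub_eq_zero]
    have an' : -⟪m (v - vb), zb⟫_ℝ = ⟪m v, z⟫_ℝ - ⟪m vb, z⟫_ℝ - ⟪m v, zb⟫_ℝ + ⟪m vb, zb⟫_ℝ := by
      rw [← an]
      simp only [inner_sub_left, inner_sub_right]; ring
    have an'' : ⟪m (v - vb), zb⟫_ℝ = ⟪m vb, z⟫_ℝ + ⟪m v, zb⟫_ℝ := by
      rw [o1, o2] at an'; linarith
    rw [an'']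
    simp only [inner_sub_left, inner_sub_right, inner_add_left, real_inner_smul_left,
      real_inner_self_eq_norm_sq]
    rw [real_inner_comm z zb]
    ring
  rw [e]
  set X := ‖z - zb‖ with hX
  have hX0 : 0 ≤ X := norm_nonneg _
  have b1 : ⟪f - fb, z - zb⟫_ℝ ≤ ν / 8 * X ^ 2 + 2 / ν * ‖f - fb‖ ^ 2 := by
    have h1 : ⟪f - fb, z - zb⟫_ℝ ≤ ‖f - fb‖ * X := real_inner_le_norm _ _
    have h2 : 0 ≤ (ν * X - 4 * ‖f - fb‖) ^ 2 / (8 * ν) := by positivity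
    have h3 : (ν * X - 4 * ‖f - fb‖) ^ 2 / (8 * ν)
        = ν / 8 * X ^ 2 - ‖f - fb‖ * X + 2 / ν * ‖f - fb‖ ^ 2 := by field_simp; ring
    linarith
  have b2 : -((a - ab) * ⟪zb, z - zb⟫_ℝ) ≤ ν / 8 * X ^ 2 + 2 / ν * Z ^ 2 * (a - ab) ^ 2 := by
    have h1 : |⟪zb, z - zb⟫_ℝ| ≤ Z * X :=
      (abs_real_inner_le_norm _ _).trans (by gcongr)
    have h0 : -((a - ab) * ⟪zb, z - zb⟫_ℝ) ≤ |a - ab| * (Z * X) := by
      calc -((a - ab) * ⟪zb, z - zb⟫_ℝ) ≤ |(a - ab) * ⟪zb, z - zb⟫_ℝ| := neg_le_abs _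
        _ = |a - ab| * |⟪zb, z - zb⟫_ℝ| := abs_mul _ _
        _ ≤ _ := by gcongr
    have h2 : 0 ≤ (ν * X - 4 * (|a - ab| * Z)) ^ 2 / (8 * ν) := by positivity
    have h3 : (ν * X - 4 * (|a - ab| * Z)) ^ 2 / (8 * ν)
        = ν / 8 * X ^ 2 - |a - ab| * (Z * X) + 2 / ν * Z ^ 2 * |a - ab| ^ 2 := by
      field_simp; ring
    rw [sq_abs] at h3
    linarith
  have b3 : -⟪m (v - vb), zb⟫_ℝ ≤ a / 4 * X ^ 2 + 64 * C ^ 2 * ‖zb‖ ^ 4 / a ^ 3 * ‖v - vb‖ ^ 2 := by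
    have h1 : -⟪m (v - vb), zb⟫_ℝ ≤ ‖m (v - vb)‖ * ‖zb‖ := by
      calc -⟪m (v - vb), zb⟫_ℝ ≤ |⟪m (v - vb), zb⟫_ℝ| := neg_le_abs _
        _ ≤ ‖m (v - vb)‖ * ‖zb‖ := abs_real_inner_le_norm _ _
    have hmem : (v - vb, z - zb) ∈ W := W.sub_mem hp hq
    have h2 := Fr.quart _ hmem
    simp only at h2
    have h3 : (‖m (v - vb)‖ * ‖zb‖) ^ 4 ≤ (C ^ 2 * ‖zb‖ ^ 4) * (X ^ 2) ^ 3 * ‖v - vb‖ ^ 2 := by
      calc (‖m (v - vb)‖ * ‖zb‖) ^ 4 = (‖m (v - vb)‖ ^ 2) ^ 2 * ‖zb‖ ^ 4 := by ring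
        _ ≤ (C * (‖v - vb‖ * X ^ 3)) ^ 2 * ‖zb‖ ^ 4 := by gcongr
        _ = _ := by ring
    have h4 := young4 (D := ‖m (v - vb)‖ * ‖zb‖) (X := X ^ 2) (Y := ‖v - vb‖ ^ 2)
      (κ := C ^ 2 * ‖zb‖ ^ 4) (θ := a / 4) (by positivity) (by positivity) (by positivity)
      (by positivity) (by positivity) h3
    have e5 : C ^ 2 * ‖zb‖ ^ 4 * ‖v - vb‖ ^ 2 / (a / 4) ^ 3
        = 64 * C ^ 2 * ‖zb‖ ^ 4 / a ^ 3 * ‖v - vb‖ ^ 2 := by
      field_simp; ring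
    rw [e5] at h4
    linarith
  have b4 : -a * X ^ 2 + a / 4 * X ^ 2 ≤ -(3 / 4) * ν * X ^ 2 := by nlinarith [sq_nonneg X]
  linarith

/-- the weight. -/
noncomputable def wt (C ν Z : ℝ) (n nb : ℝ → ℝ) (zb : ℝ → K) (s : ℝ) : ℝ :=
  64 * C ^ 2 * (‖zb s‖ ^ 4 / nb s ^ 3 + 3 * Z ^ 4 / ν ^ 4 * |n s - nb s|)

theorem inv_cube {ν a b : ℝ} (hν : 0 < ν) (ha : ν ≤ a) (hb : ν ≤ b) :
    1 / a ^ 3 ≤ 1 / b ^ 3 + 3 / ν ^ 4 * |a - b| := by
  have ha0 : 0 < a := hν.trans_le ha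
  have hb0 : 0 < b := hν.trans_le hb
  have e : 1 / a ^ 3 - 1 / b ^ 3 = (b - a) * (1 / (a * b ^ 3) + 1 / (a ^ 2 * b ^ 2)
      + 1 / (a ^ 3 * b)) := by
    field_simp; ring
  have h1 : 1 / (a * b ^ 3) ≤ 1 / ν ^ 4 := by
    apply one_div_le_one_div_of_le (by positivity)
    calc ν ^ 4 = ν * ν ^ 3 := by ring
      _ ≤ a * b ^ 3 := by gcongr
  have h2 : 1 / (a ^ 2 * b ^ 2) ≤ 1 / ν ^ 4 := by
    apply one_div_le_one_div_of_le (by positivity)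
    calc ν ^ 4 = ν ^ 2 * ν ^ 2 := by ring
      _ ≤ a ^ 2 * b ^ 2 := by gcongr
  have h3 : 1 / (a ^ 3 * b) ≤ 1 / ν ^ 4 := by
    apply one_div_le_one_div_of_le (by positivity)
    calc ν ^ 4 = ν ^ 3 * ν := by ring
      _ ≤ a ^ 3 * b := by gcongr
  have h4 : (b - a) * (1 / (a * b ^ 3) + 1 / (a ^ 2 * b ^ 2) + 1 / (a ^ 3 * b))
      ≤ |a - b| * (1 / ν ^ 4 + 1 / ν ^ 4 + 1 / ν ^ 4) := by
    have h5 : b - a ≤ |a - b| := by rw [abs_sub_comm]; exact le_abs_self _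
    have h6 : 0 ≤ 1 / (a * b ^ 3) + 1 / (a ^ 2 * b ^ 2) + 1 / (a ^ 3 * b) := by positivity
    calc _ ≤ |a - b| * (1 / (a * b ^ 3) + 1 / (a ^ 2 * b ^ 2) + 1 / (a ^ 3 * b)) := by gcongr
      _ ≤ _ := by gcongr
  have h5 : |a - b| * (1 / ν ^ 4 + 1 / ν ^ 4 + 1 / ν ^ 4) = 3 / ν ^ 4 * |a - b| := by ring
  linarith

theorem weight_le {ν a b Z x : ℝ} (hν : 0 < ν) (ha : ν ≤ a) (hb : ν ≤ b) (hx : 0 ≤ x)
    (hxZ : x ≤ Z) {C : ℝ} : 64 * C ^ 2 * x ^ 4 / a ^ 3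
      ≤ 64 * C ^ 2 * (x ^ 4 / b ^ 3 + 3 * Z ^ 4 / ν ^ 4 * |a - b|) := by
  have h1 := inv_cube hν ha hb
  have h2 : x ^ 4 * (1 / a ^ 3) ≤ x ^ 4 * (1 / b ^ 3 + 3 / ν ^ 4 * |a - b|) := by gcongr
  have h3 : x ^ 4 * (3 / ν ^ 4 * |a - b|) ≤ Z ^ 4 * (3 / ν ^ 4 * |a - b|) := by gcongr
  calc 64 * C ^ 2 * x ^ 4 / a ^ 3 = 64 * C ^ 2 * (x ^ 4 * (1 / a ^ 3)) := by ring
    _ ≤ 64 * C ^ 2 * (x ^ 4 * (1 / b ^ 3) + Z ^ 4 * (3 / ν ^ 4 * |a - b|)) := by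
        gcongr
        linarith
    _ = _ := by ring

/-- the integral of the weight. -/
noncomputable def wb (C ν T Z D c : ℝ) : ℝ := 64 * C ^ 2 * (D + 3 * Z ^ 4 / ν ^ 4 * Real.sqrt (T * c))

/-- the constant as a function of the integral of the weight. -/
noncomputable def kc (ν b : ℝ) : ℝ :=
  (2 + 2 / ν) * (1 + b * (2 * Real.exp (2 * b))) + 2 * Real.exp (2 * b)

/-- the bound for the distance of the solutions. -/
noncomputable def psi (C ν T Z D a b c : ℝ) : ℝ :=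
  kc ν (wb C ν T Z D c) * (a ^ 2 / 2 + 2 / ν * b + 2 / ν * Z ^ 2 * c)

theorem wb_nonneg {C ν T Z D c : ℝ} (hD : 0 ≤ D) : 0 ≤ wb C ν T Z D c := by
  unfold wb; positivity

theorem two_le_kc {ν b : ℝ} (hν : 0 < ν) (hb : 0 ≤ b) : 2 ≤ kc ν b := by
  unfold kc
  have h1 : 1 ≤ Real.exp (2 * b) := Real.one_le_exp (by positivity)
  have h2 : 0 ≤ (2 + 2 / ν) * (1 + b * (2 * Real.exp (2 * b))) := by positivity
  linarith

theorem kc_mono {ν b b' : ℝ} (hν : 0 < ν) (hb : 0 ≤ b) (h : b ≤ b') : kc ν b ≤ kc ν b' := by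
  have hb' : 0 ≤ b' := hb.trans h
  unfold kc
  gcongr

theorem wb_mono {C ν T T' Z D c c' : ℝ} (hT : 0 ≤ T) (hTT : T ≤ T') (hc : 0 ≤ c)
    (hcc : c ≤ c') : wb C ν T Z D c ≤ wb C ν T' Z D c' := by
  unfold wb
  gcongr
  exact hT.trans hTT

theorem psi_mono {C ν T T' Z D a b b' c c' : ℝ} (hν : 0 < ν) (hD : 0 ≤ D) (hT : 0 ≤ T)
    (hTT : T ≤ T') (hb : 0 ≤ b) (hbb : b ≤ b') (hc : 0 ≤ c) (hcc : c ≤ c') :
    psi C ν T Z D a b c ≤ psi C ν T' Z D a b' c' := by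
  have h1 := kc_mono hν (wb_nonneg (C := C) (ν := ν) (T := T) (Z := Z) (c := c) hD)
    (wb_mono (C := C) (ν := ν) (Z := Z) (D := D) hT hTT hc hcc)
  have h2 : 0 ≤ kc ν (wb C ν T' Z D c') := by
    have := two_le_kc hν (wb_nonneg (C := C) (ν := ν) (T := T') (Z := Z) (c := c') hD)
    linarith
  unfold psi
  have h3 : a ^ 2 / 2 + 2 / ν * b + 2 / ν * Z ^ 2 * c ≤ a ^ 2 / 2 + 2 / ν * b' + 2 / ν * Z ^ 2 * c' := by
    gcongr
  exact mul_le_mul h1 h3 (by positivity) h2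

theorem psi_cont {C ν T Z D : ℝ} : Continuous fun q : ℝ × ℝ × ℝ => psi C ν T Z D q.1 q.2.1 q.2.2 := by
  unfold psi kc wb
  fun_prop

end Pool.Agent.H319R3.GW
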