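import Mathlib
import Pool.Agent.H319R3.GW.Stab

/-!
Relative energy inequality with an integrable weight.
-/

set_option linter.unusedSectionVars false

open MeasureTheory Set Filter Topology Metric
open scoped InnerProductSpace NNReal ENNReal

namespace Pool.Agent.H319R3.GW

open H772R2.NSR (Frame grad_unique prim_cont young4 ii_of_cont ii_mono ae_deriv_of_prim
  hasDerivAt_prim memLp_ii)
open H772R2.NSG
open Pool.Agent.H319R3.GV

variable {H K : Type*} [NormedAddCommGroup H] [InnerProductSpace ℝ H] [CompleteSpace H]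
  [NormedAddCommGroup K] [InnerProductSpace ℝ K] [CompleteSpace K]

variable {W : Submodule ℝ (H × K)} {m : H → K} {C : ℝ} {ν T : ℝ}

section rel

variable {n nb : ℝ → ℝ} {F Fb : ℝ → K} {x0 xb0 : H} {u ub ub1 : ℝ → H} {z zb zb1 : ℝ → K} {Z : ℝ}

theorem wt_nonneg (hν : 0 < ν) (hlow : ∀ t ∈ Icc 0 T, ν ≤ nb t) :
    ∀ s ∈ Icc 0 T, 0 ≤ wt C ν Z n nb zb s := by
  intro s hs
  have : 0 < nb s := hν.trans_le (hlow s hs)
  unfold wt
  positivity

theorem wt_cont (hν : 0 < ν) (S : St W m T nb Fb xb0 ub zb ub1 zb1 Z)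
    (hlow : ∀ t ∈ Icc 0 T, ν ≤ nb t) : ContinuousOn (fun s => ‖zb s‖ ^ 4 / nb s ^ 3) (Icc 0 T) :=
  (S.zc.norm.pow 4).div (S.nc.pow 3) fun s hs => by
    have : 0 < nb s := hν.trans_le (hlow s hs)
    positivity

theorem abs_int (Co : Coef ν T n F) (S : St W m T nb Fb xb0 ub zb ub1 zb1 Z) :
    Integrable (fun s => |n s - nb s|) (volume.restrict (Ioc 0 T)) :=
  ((Co.n2.integrable (by norm_num)).sub ((mem_cont (p := 1) S.nc).integrable le_rfl)).abs

theorem wt_int1 (hν : 0 < ν) (Co : Coef ν T n F)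
    (S : St W m T nb Fb xb0 ub zb ub1 zb1 Z) (hlow : ∀ t ∈ Icc 0 T, ν ≤ nb t) :
    Integrable (wt C ν Z n nb zb) (volume.restrict (Ioc 0 T)) := by
  have h1 := (mem_cont (p := 1) (wt_cont hν S hlow)).integrable le_rfl
  exact (h1.add ((abs_int Co S).const_mul (3 * Z ^ 4 / ν ^ 4))).const_mul (64 * C ^ 2)

theorem wt_int (hν : 0 < ν) (Co : Coef ν T n F) (L : LH W m T n F x0 u z)
    (S : St W m T nb Fb xb0 ub zb ub1 zb1 Z) (hlow : ∀ t ∈ Icc 0 T, ν ≤ nb t) :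
    Integrable (fun s => wt C ν Z n nb zb s * ‖u s - ub s‖ ^ 2) (volume.restrict (Ioc 0 T)) := by
  obtain ⟨M, hM⟩ := L.bdd hν.le Co
  obtain ⟨M', hM'⟩ := (isCompact_Icc.image_of_continuousOn S.uc).isBounded.exists_norm_le
  have h1 := wt_int1 (C := C) (Z := Z) (zb := zb) hν Co S hlow
  refine (h1.norm.mul_const ((M + M') ^ 2)).mono' (h1.aestronglyMeasurable.mul
    ((L.meas.sub (mem_cont (p := 2) S.uc).aestronglyMeasurable).norm.pow 2)) ?_
  filter_upwards [ae_restrict_mem measurableSet_Ioc] with s hs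
  have hs' := Ioc_subset_Icc_self hs
  rw [norm_mul, Real.norm_eq_abs (‖u s - ub s‖ ^ 2), abs_of_nonneg (sq_nonneg _)]
  gcongr
  calc ‖u s - ub s‖ ≤ ‖u s‖ + ‖ub s‖ := norm_sub_le _ _
    _ ≤ M + M' := add_le_add (hM s hs') (hM' _ ⟨s, hs', rfl⟩)

theorem wt_le (hν : 0 < ν) (hT : 0 < T) (Co : Coef ν T n F)
    (S : St W m T nb Fb xb0 ub zb ub1 zb1 Z) (hlow : ∀ t ∈ Icc 0 T, ν ≤ nb t) {D : ℝ}
    (hD : ∫ s in Ioc 0 T, ‖zb s‖ ^ 4 / nb s ^ 3 ≤ D) :
    ∫ s in (0 : ℝ)..T, wt C ν Z n nb zb s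
      ≤ wb C ν T Z D (∫ s in Ioc 0 T, ‖n s - nb s‖ ^ 2) := by
  have h1 := (mem_cont (p := 1) (wt_cont hν S hlow)).integrable le_rfl
  have h2 := abs_int Co S
  rw [intervalIntegral.integral_of_le hT.le]
  unfold wt wb
  rw [integral_const_mul, integral_add h1 (h2.const_mul _), integral_const_mul]
  have h3 : ∫ s in Ioc 0 T, |n s - nb s| ≤ Real.sqrt (T * ∫ s in Ioc 0 T, ‖n s - nb s‖ ^ 2) := by
    refine Real.le_sqrt_of_sq_le ?_
    have h4 := sq_int_real Co.n2 (mem_cont (p := 2) S.nc)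
    set I := ∫ s in Ioc 0 T, |n s - nb s| with hI
    have h5 : 0 ≤ ∫ s in Ioc 0 T, (|n s - nb s| - I / T) ^ 2 :=
      integral_nonneg fun s => sq_nonneg _
    have e : ∫ s in Ioc 0 T, (|n s - nb s| - I / T) ^ 2
        = (∫ s in Ioc 0 T, ‖n s - nb s‖ ^ 2) - 2 * (I / T) * I + (I / T) ^ 2 * T := by
      have e1 : ∀ s, (|n s - nb s| - I / T) ^ 2
          = ‖n s - nb s‖ ^ 2 - 2 * (I / T) * |n s - nb s| + (I / T) ^ 2 := by
        intro s; rw [Real.norm_eq_abs]; ring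
      simp_rw [e1]
      have h6 : Integrable (fun s => ‖n s - nb s‖ ^ 2) (volume.restrict (Ioc 0 T)) :=
        sq_int Co.n2 (mem_cont (p := 2) S.nc)
      have h8 : Integrable (fun s => 2 * (I / T) * |n s - nb s|) (volume.restrict (Ioc 0 T)) :=
        h2.const_mul _
      have h9 : Integrable (fun s => ‖n s - nb s‖ ^ 2 - 2 * (I / T) * |n s - nb s|)
          (volume.restrict (Ioc 0 T)) := h6.sub h8
      rw [integral_add h9 (integrable_const _), integral_sub h6 h8, integral_const_mul, ← hI,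
        setIntegral_const]
      simp [Measure.real, hT.le]
      ring
    rw [e] at h5
    have e2 : (∫ s in Ioc 0 T, ‖n s - nb s‖ ^ 2) - 2 * (I / T) * I + (I / T) ^ 2 * T
        = (∫ s in Ioc 0 T, ‖n s - nb s‖ ^ 2) - I ^ 2 / T := by
      field_simp; ring
    rw [e2] at h5
    have h7 : I ^ 2 / T ≤ ∫ s in Ioc 0 T, ‖n s - nb s‖ ^ 2 := by linarith
    rw [div_le_iff₀ hT] at h7
    linarith
  gcongr

theorem rel_energy' (Fr : Frame W m C) (hν : 0 < ν) (hT : 0 < T) (Co : Coef ν T n F)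
    (L : LH W m T n F x0 u z) (S : St W m T nb Fb xb0 ub zb ub1 zb1 Z)
    (hlow : ∀ t ∈ Icc 0 T, ν ≤ nb t) {t : ℝ} (ht : t ∈ Icc 0 T) :
    ‖u t - ub t‖ ^ 2 / 2 + (ν / 2) * (∫ s in (0 : ℝ)..t, ‖z s - zb s‖ ^ 2) + dft n F x0 u z t
      ≤ ‖x0 - xb0‖ ^ 2 / 2
        + (∫ s in (0 : ℝ)..t, (2 / ν * ‖F s - Fb s‖ ^ 2 + 2 / ν * Z ^ 2 * (n s - nb s) ^ 2))
        + ∫ s in (0 : ℝ)..t, wt C ν Z n nb zb s * ‖u s - ub s‖ ^ 2 := by
  have hsub : (volume.restrict (Ioc 0 t) : Measure ℝ) ≤ volume.restrict (Ioc 0 T) :=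
    Measure.restrict_mono (Ioc_subset_Ioc_right ht.2) le_rfl
  have hcr := cross Fr hT Co L S ht
  have hen := S.energy t ht
  have hZ0 : 0 ≤ Z := (norm_nonneg _).trans (S.bz t ht)
  -- measurability and integrability of all terms
  have mzb := mem_cont (p := 2) S.zc
  have mub := mem_cont (p := 2) S.uc
  have mFb := mem_cont (p := 2) S.Fc
  have mnb := mem_cont (p := 2) S.nc
  have mGb := mem_cont (p := 2) (S.gc Fr)
  obtain ⟨M, hM⟩ := L.bdd hν.le Co
  have mu : MemLp u 2 (volume.restrict (Ioc 0 T)) := by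
    refine MemLp.of_bound L.meas M ?_
    filter_upwards [ae_restrict_mem measurableSet_Ioc] with s hs
    exact hM s (Ioc_subset_Icc_self hs)
  have j1 : Integrable (fun s => ⟪F s, z s⟫_ℝ) (volume.restrict (Ioc 0 T)) := L.Fzi Co
  have j2 := L.dis
  have j3 : Integrable (fun s => ⟪Fb s, zb s⟫_ℝ) (volume.restrict (Ioc 0 T)) := int_inner mFb mzb
  have j4 : Integrable (fun s => nb s * ‖zb s‖ ^ 2) (volume.restrict (Ioc 0 T)) := by
    have : ContinuousOn (fun s => nb s * ‖zb s‖ ^ 2) (Icc 0 T) := S.nc.mul (S.zc.norm.pow 2)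
    exact (mem_cont (p := 1) this).integrable le_rfl
  have j5 : Integrable (fun s => ⟪Fb s - nb s • zb s + m (ub s), z s⟫_ℝ)
      (volume.restrict (Ioc 0 T)) := int_inner mGb L.z2
  have j6 : Integrable (fun s => ⟪F s - n s • z s + m (u s), zb s⟫_ℝ)
      (volume.restrict (Ioc 0 T)) := by
    refine ((L.Gi Fr Co).norm.mul_const Z).mono'
      ((L.Gi Fr Co).aestronglyMeasurable.inner mzb.aestronglyMeasurable) ?_
    filter_upwards [ae_restrict_mem measurableSet_Ioc] with s hs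
    refine (norm_inner_le_norm _ _).trans ?_
    gcongr
    exact S.bz s (Ioc_subset_Icc_self hs)
  have j7 : Integrable (fun s => ‖z s - zb s‖ ^ 2) (volume.restrict (Ioc 0 T)) :=
    (memLp_two_iff_integrable_sq_norm (L.z2.sub mzb).aestronglyMeasurable).mp (L.z2.sub mzb)
  have j8 : Integrable (fun s => ‖F s - Fb s‖ ^ 2) (volume.restrict (Ioc 0 T)) :=
    (memLp_two_iff_integrable_sq_norm (Co.F2.sub mFb).aestronglyMeasurable).mp (Co.F2.sub mFb)
  have j9 : Integrable (fun s => (n s - nb s) ^ 2) (volume.restrict (Ioc 0 T)) := by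
    have := (memLp_two_iff_integrable_sq_norm (Co.n2.sub mnb).aestronglyMeasurable).mp
      (Co.n2.sub mnb)
    refine this.congr (Eventually.of_forall fun s => ?_)
    show ‖n s - nb s‖ ^ 2 = (n s - nb s) ^ 2
    rw [Real.norm_eq_abs, sq_abs]
  have j10 := wt_int (C := C) hν Co L S hlow
  have ii : ∀ {f : ℝ → ℝ}, Integrable f (volume.restrict (Ioc 0 T)) →
      IntervalIntegrable f volume 0 t := fun hf => ii_of_int hf le_rfl ht.1 ht.2
  have i1 := ii j1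
  have i2 := ii j2
  have i3 := ii j3
  have i4 := ii j4
  have i5 := ii j5
  have i6 := ii j6
  have i7 := ii j7
  have i8 := ii j8
  have i9 := ii j9
  have i10 := ii j10
  -- the pointwise inequality integrated
  have key : ∫ s in (0 : ℝ)..t, (⟪F s, z s⟫_ℝ - n s * ‖z s‖ ^ 2 + ⟪Fb s, zb s⟫_ℝ
        - nb s * ‖zb s‖ ^ 2 - ⟪Fb s - nb s • zb s + m (ub s), z s⟫_ℝ
        - ⟪F s - n s • z s + m (u s), zb s⟫_ℝ)
      ≤ ∫ s in (0 : ℝ)..t, (-(ν / 2) * ‖z s - zb s‖ ^ 2 + (2 / ν * ‖F s - Fb s‖ ^ 2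
        + 2 / ν * Z ^ 2 * (n s - nb s) ^ 2) + wt C ν Z n nb zb s * ‖u s - ub s‖ ^ 2) := by
    refine intervalIntegral.integral_mono_ae_restrict ht.1
      (((((i1.sub i2).add i3).sub i4).sub i5).sub i6)
      (((i7.const_mul _).add ((i8.const_mul _).add (i9.const_mul _))).add i10) ?_
    have hsub' : (volume.restrict (Icc 0 t) : Measure ℝ) ≤ volume.restrict (Ioc 0 T) := by
      rw [← restrict_Ioc_eq_restrict_Icc]; exact hsub
    filter_upwards [ae_mono hsub' L.mem, ae_mono hsub' Co.low,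
      ae_restrict_mem measurableSet_Icc] with s k1 k2 k3
    have hs : s ∈ Icc 0 T := ⟨k3.1, k3.2.trans ht.2⟩
    refine (pointwise' (f := F s) (fb := Fb s) (ab := nb s) Fr hν k1 (S.mem s hs) k2
      (S.bz s hs)).trans ?_
    have k4 := weight_le (C := C) hν k2 (hlow s hs) (norm_nonneg (zb s)) (S.bz s hs)
    have k5 := mul_le_mul_of_nonneg_right k4 (sq_nonneg ‖u s - ub s‖)
    unfold wt
    linarith
  rw [intervalIntegral.integral_sub ((((i1.sub i2).add i3).sub i4).sub i5) i6,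
    intervalIntegral.integral_sub (((i1.sub i2).add i3).sub i4) i5,
    intervalIntegral.integral_sub ((i1.sub i2).add i3) i4,
    intervalIntegral.integral_add (i1.sub i2) i3,
    intervalIntegral.integral_sub i1 i2,
    intervalIntegral.integral_add ((i7.const_mul _).add ((i8.const_mul _).add (i9.const_mul _)))
      i10,
    intervalIntegral.integral_add (i7.const_mul _) ((i8.const_mul _).add (i9.const_mul _)),
    intervalIntegral.integral_const_mul] at key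
  have e1 : ‖u t - ub t‖ ^ 2 = ‖u t‖ ^ 2 - 2 * ⟪u t, ub t⟫_ℝ + ‖ub t‖ ^ 2 := norm_sub_sq_real _ _
  have e2 : ‖x0 - xb0‖ ^ 2 = ‖x0‖ ^ 2 - 2 * ⟪x0, xb0⟫_ℝ + ‖xb0‖ ^ 2 := norm_sub_sq_real _ _
  rw [e1, e2, hcr]
  unfold dft
  linarith


theorem stab' (Fr : Frame W m C) (hν : 0 < ν) (hT : 0 < T) (Co : Coef ν T n F)
    (L : LH W m T n F x0 u z) (S : St W m T nb Fb xb0 ub zb ub1 zb1 Z)
    (hlow : ∀ t ∈ Icc 0 T, ν ≤ nb t) {D : ℝ}
    (hD : ∫ s in Ioc 0 T, ‖zb s‖ ^ 4 / nb s ^ 3 ≤ D) {A : ℝ}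
    (hA : psi C ν T Z D ‖x0 - xb0‖ (∫ s in Ioc 0 T, ‖F s - Fb s‖ ^ 2)
      (∫ s in Ioc 0 T, ‖n s - nb s‖ ^ 2) = A) :
    (∀ t ∈ Icc 0 T, ‖u t - ub t‖ ^ 2 ≤ A) ∧
    (∫ s in Ioc 0 T, ‖z s - zb s‖ ^ 2) ≤ A ∧
    ∀ t ∈ Icc 0 T, dft n F x0 u z t ≤ A := by
  subst hA
  have mFb := mem_cont (p := 2) S.Fc
  have mnb := mem_cont (p := 2) S.nc
  have j8 := sq_int Co.F2 mFb
  have j9 := sq_int_real Co.n2 mnb
  have jA : Integrable (fun s => 2 / ν * ‖F s - Fb s‖ ^ 2 + 2 / ν * Z ^ 2 * (n s - nb s) ^ 2)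
      (volume.restrict (Ioc 0 T)) := (j8.const_mul _).add (j9.const_mul _)
  set A : ℝ := ‖x0 - xb0‖ ^ 2 / 2 + 2 / ν * (∫ s in Ioc 0 T, ‖F s - Fb s‖ ^ 2)
      + 2 / ν * Z ^ 2 * (∫ s in Ioc 0 T, ‖n s - nb s‖ ^ 2) with hA
  have hF0 : 0 ≤ ∫ s in Ioc 0 T, ‖F s - Fb s‖ ^ 2 := integral_nonneg fun s => by positivity
  have hn0 : 0 ≤ ∫ s in Ioc 0 T, ‖n s - nb s‖ ^ 2 := integral_nonneg fun s => by positivity
  have hA0 : 0 ≤ A := by positivity
  have hge : gap ν T Z n nb F Fb x0 xb0 = A := gap_eq Co.F2 mFb Co.n2 mnb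
  have hA1 : ∀ t ∈ Icc 0 T, ‖x0 - xb0‖ ^ 2 / 2 + (∫ s in (0 : ℝ)..t,
      (2 / ν * ‖F s - Fb s‖ ^ 2 + 2 / ν * Z ^ 2 * (n s - nb s) ^ 2)) ≤ A := by
    intro t ht
    rw [← hge, intervalIntegral.integral_of_le ht.1]
    unfold gap
    refine add_le_add le_rfl ?_
    refine setIntegral_mono_set jA (Eventually.of_forall fun s => ?_)
      (Ioc_subset_Ioc_right ht.2).eventuallyLE
    show 0 ≤ 2 / ν * ‖F s - Fb s‖ ^ 2 + 2 / ν * Z ^ 2 * (n s - nb s) ^ 2
    positivity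
  have hwi := wt_int1 (C := C) (Z := Z) (zb := zb) hν Co S hlow
  have hwy := wt_int (C := C) hν Co L S hlow
  have hw0 : ∀ s ∈ Icc 0 T, 0 ≤ wt C ν Z n nb zb s := wt_nonneg hν hlow
  have hw0' : ∀ᵐ s ∂(volume.restrict (Ioc 0 T)), 0 ≤ wt C ν Z n nb zb s := by
    filter_upwards [ae_restrict_mem measurableSet_Ioc] with s hs
    exact hw0 s (Ioc_subset_Icc_self hs)
  set c : ℝ := ∫ s in (0 : ℝ)..T, wt C ν Z n nb zb s with hc
  have hc0 : 0 ≤ c := intervalIntegral.integral_nonneg hT.le fun s hs => hw0 s hs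
  have hcw : c ≤ wb C ν T Z D (∫ s in Ioc 0 T, ‖n s - nb s‖ ^ 2) :=
    wt_le hν hT Co S hlow hD
  have hd0 : ∀ t ∈ Icc 0 T, 0 ≤ dft n F x0 u z t := fun t ht => by
    unfold dft
    linarith [L.energy t ht]
  have hI0 : ∀ t ∈ Icc 0 T, 0 ≤ ∫ s in (0 : ℝ)..t, ‖z s - zb s‖ ^ 2 := fun t ht =>
    intervalIntegral.integral_nonneg ht.1 fun s _ => by positivity
  -- Gronwall
  let Q : ℝ → ℝ := fun t => 2 * A + 2 * ∫ s in (0 : ℝ)..t, wt C ν Z n nb zb s * ‖u s - ub s‖ ^ 2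
  have hQ1 : ∀ t ∈ Icc 0 T, ‖u t - ub t‖ ^ 2 ≤ Q t := fun t ht => by
    have h1 := rel_energy' Fr hν hT Co L S hlow ht
    have h2 := hA1 t ht
    have h3 := hd0 t ht
    have h4 : 0 ≤ (ν / 2) * ∫ s in (0 : ℝ)..t, ‖z s - zb s‖ ^ 2 :=
      mul_nonneg (by positivity) (hI0 t ht)
    show _ ≤ 2 * A + 2 * _
    linarith
  have hQ0 : ∀ t ∈ Icc 0 T, 0 ≤ Q t := fun t ht => (sq_nonneg _).trans (hQ1 t ht)
  have hQc : ContinuousOn Q (Icc 0 T) := by
    have : ContinuousOn (fun t => ∫ s in (0 : ℝ)..t, wt C ν Z n nb zb s * ‖u s - ub s‖ ^ 2)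
        (Icc 0 T) := by
      have hi : IntegrableOn (fun s => wt C ν Z n nb zb s * ‖u s - ub s‖ ^ 2) (uIcc 0 T)
          volume := by
        rw [uIcc_of_le hT.le, integrableOn_Icc_iff_integrableOn_Ioc]
        exact hwy
      have := intervalIntegral.continuousOn_primitive_interval hi
      rwa [uIcc_of_le hT.le] at this
    exact continuousOn_const.add (continuousOn_const.mul this)
  have hwQ : Integrable (fun s => wt C ν Z n nb zb s * Q s) (volume.restrict (Ioc 0 T)) := by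
    obtain ⟨M, hM⟩ := (isCompact_Icc.image_of_continuousOn hQc).isBounded.exists_norm_le
    refine (hwi.norm.mul_const M).mono' (hwi.aestronglyMeasurable.mul
      (mem_cont (p := 1) hQc).aestronglyMeasurable) ?_
    filter_upwards [ae_restrict_mem measurableSet_Ioc] with s hs
    rw [norm_mul]
    gcongr
    exact hM _ ⟨s, Ioc_subset_Icc_self hs, rfl⟩
  have hQle : ∀ t ∈ Icc 0 T, Q t ≤ Real.exp (2 * c) * (2 * A) := by
    intro t ht
    have := gron_L1 hT.le (a := 2 * A) (by positivity) hQc hQ0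
      (b := fun s => 2 * wt C ν Z n nb zb s) (hwi.const_mul 2)
      (by filter_upwards [hw0'] with s hs; positivity) (fun t ht => by
        show 2 * A + 2 * (∫ s in (0 : ℝ)..t, wt C ν Z n nb zb s * ‖u s - ub s‖ ^ 2) ≤ _
        have e : ∫ s in (0 : ℝ)..t, 2 * wt C ν Z n nb zb s * Q s
            = 2 * ∫ s in (0 : ℝ)..t, wt C ν Z n nb zb s * Q s := by
          rw [← intervalIntegral.integral_const_mul]
          refine intervalIntegral.integral_congr fun s _ => ?_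
          show 2 * wt C ν Z n nb zb s * Q s = 2 * (wt C ν Z n nb zb s * Q s)
          ring
        rw [e]
        gcongr
        refine intervalIntegral.integral_mono_on ht.1 (ii_of_int hwy le_rfl ht.1 ht.2)
          (ii_of_int hwQ le_rfl ht.1 ht.2) ?_
        intro s hs
        have hs' : s ∈ Icc 0 T := ⟨hs.1, hs.2.trans ht.2⟩
        exact mul_le_mul_of_nonneg_left (hQ1 s hs') (hw0 s hs')) ht
    rw [intervalIntegral.integral_const_mul] at this
    exact this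
  set b := wb C ν T Z D (∫ s in Ioc 0 T, ‖n s - nb s‖ ^ 2) with hb
  have hb0 : 0 ≤ b := hc0.trans hcw
  have hS : 2 * Real.exp (2 * b) ≤ kc ν b := by
    unfold kc
    have : 0 ≤ (2 + 2 / ν) * (1 + b * (2 * Real.exp (2 * b))) := by positivity
    linarith
  have hecb : Real.exp (2 * c) ≤ Real.exp (2 * b) := Real.exp_le_exp.mpr (by linarith)
  have hy : ∀ t ∈ Icc 0 T, ‖u t - ub t‖ ^ 2 ≤ 2 * Real.exp (2 * b) * A := fun t ht => by
    refine ((hQ1 t ht).trans (hQle t ht)).trans ?_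
    calc Real.exp (2 * c) * (2 * A) ≤ Real.exp (2 * b) * (2 * A) := by gcongr
      _ = _ := by ring
  have hyI : ∀ t ∈ Icc 0 T, ∫ s in (0 : ℝ)..t, wt C ν Z n nb zb s * ‖u s - ub s‖ ^ 2
      ≤ b * (2 * Real.exp (2 * b) * A) := by
    intro t ht
    calc ∫ s in (0 : ℝ)..t, wt C ν Z n nb zb s * ‖u s - ub s‖ ^ 2
        ≤ ∫ s in (0 : ℝ)..t, wt C ν Z n nb zb s * (2 * Real.exp (2 * b) * A) :=
          intervalIntegral.integral_mono_on ht.1 (ii_of_int hwy le_rfl ht.1 ht.2)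
            (ii_of_int (hwi.mul_const _) le_rfl ht.1 ht.2) (fun s hs =>
              mul_le_mul_of_nonneg_left (hy s ⟨hs.1, hs.2.trans ht.2⟩)
                (hw0 s ⟨hs.1, hs.2.trans ht.2⟩))
      _ = (∫ s in (0 : ℝ)..t, wt C ν Z n nb zb s) * (2 * Real.exp (2 * b) * A) := by
          rw [intervalIntegral.integral_mul_const]
      _ ≤ c * (2 * Real.exp (2 * b) * A) := by
          gcongr
          rw [hc, intervalIntegral.integral_of_le ht.1, intervalIntegral.integral_of_le hT.le]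
          exact setIntegral_mono_set hwi hw0' (Ioc_subset_Ioc_right ht.2).eventuallyLE
      _ ≤ _ := by gcongr
  have hall : ∀ t ∈ Icc 0 T, (ν / 2) * (∫ s in (0 : ℝ)..t, ‖z s - zb s‖ ^ 2)
      + dft n F x0 u z t ≤ (1 + b * (2 * Real.exp (2 * b))) * A := by
    intro t ht
    have h1 := rel_energy' Fr hν hT Co L S hlow ht
    have h2 := hA1 t ht
    have h3 := hyI t ht
    have h5 : 0 ≤ ‖u t - ub t‖ ^ 2 / 2 := by positivity
    nlinarith
  have hpsi : psi C ν T Z D ‖x0 - xb0‖ (∫ s in Ioc 0 T, ‖F s - Fb s‖ ^ 2)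
      (∫ s in Ioc 0 T, ‖n s - nb s‖ ^ 2) = kc ν b * A := rfl
  rw [hpsi]
  refine ⟨fun t ht => (hy t ht).trans (by gcongr), ?_, fun t ht => ?_⟩
  · have hTT : T ∈ Icc 0 T := ⟨hT.le, le_rfl⟩
    have h1 := hall T hTT
    have h2 := hd0 T hTT
    rw [intervalIntegral.integral_of_le hT.le] at h1
    have h3 : ∫ s in Ioc 0 T, ‖z s - zb s‖ ^ 2
        ≤ (2 / ν) * ((1 + b * (2 * Real.exp (2 * b))) * A) := by
      rw [← div_le_iff₀' (by positivity)]
      have : (∫ s in Ioc 0 T, ‖z s - zb s‖ ^ 2) / (2 / ν)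
          = ν / 2 * ∫ s in Ioc 0 T, ‖z s - zb s‖ ^ 2 := by field_simp
      rw [this]; linarith
    refine h3.trans ?_
    rw [← mul_assoc]
    gcongr
    unfold kc
    have : 0 ≤ 2 * (1 + b * (2 * Real.exp (2 * b))) := by positivity
    have : 0 ≤ 2 * Real.exp (2 * b) := by positivity
    nlinarith
  · have h1 := hall t ht
    have h2 : 0 ≤ (ν / 2) * ∫ s in (0 : ℝ)..t, ‖z s - zb s‖ ^ 2 :=
      mul_nonneg (by positivity) (hI0 t ht)
    refine (by linarith : dft n F x0 u z t ≤ (1 + b * (2 * Real.exp (2 * b))) * A).trans ?_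
    gcongr
    unfold kc
    have : 0 ≤ (1 + 2 / ν) * (1 + b * (2 * Real.exp (2 * b))) := by positivity
    have : 0 ≤ 2 * Real.exp (2 * b) := by positivity
    nlinarith

end rel

end Pool.Agent.H319R3.GW
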