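import Mathlib
import Pool.Agent.H319R3.GW.Stab2

/-!
If the data of a Leray-Hopf solution are extremely well approximated by the data of strong
solutions, then the Leray-Hopf solution is unique, continuous and satisfies the energy equality.
The constants depend on the strong solutions only through `∫ ‖∇u‖⁴ / n³`, except in front of the
distance of the viscosities.
-/

set_option linter.unusedSectionVars false

open MeasureTheory Set Filter Topology Metric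
open scoped InnerProductSpace NNReal ENNReal

namespace Pool.Agent.H319R3.GW

open H772R2.NSR (Frame grad_unique prim_cont)
open H772R2.NSG
open Pool.Agent.H319R3.GV

variable {H K : Type*} [NormedAddCommGroup H] [InnerProductSpace ℝ H] [CompleteSpace H]
  [NormedAddCommGroup K] [InnerProductSpace ℝ K] [CompleteSpace K]

variable {W : Submodule ℝ (H × K)} {m : H → K} {C : ℝ} {ν T : ℝ}

theorem D_nonneg {nb : ℝ → ℝ} {zb : ℝ → K} (hν : 0 < ν) (hlow : ∀ t ∈ Icc 0 T, ν ≤ nb t) :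
    0 ≤ ∫ s in Ioc 0 T, ‖zb s‖ ^ 4 / nb s ^ 3 := by
  refine setIntegral_nonneg measurableSet_Ioc fun s hs => ?_
  have : 0 < nb s := hν.trans_le (hlow s (Ioc_subset_Icc_self hs))
  positivity

theorem psi_tendsto {C ν T Z D a0 b0 c0 : ℝ} {a b c : ℕ → ℝ} (ha : Tendsto a atTop (𝓝 a0))
    (hb : Tendsto b atTop (𝓝 b0)) (hc : Tendsto c atTop (𝓝 c0)) :
    Tendsto (fun i => psi C ν T Z D (a i) (b i) (c i)) atTop (𝓝 (psi C ν T Z D a0 b0 c0)) := by
  unfold psi kc wb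
  have h1 : Tendsto (fun i => Real.sqrt (T * c i)) atTop (𝓝 (Real.sqrt (T * c0))) :=
    (Real.continuous_sqrt.tendsto _).comp (hc.const_mul T)
  have h2 : Tendsto (fun i => 64 * C ^ 2 * (D + 3 * Z ^ 4 / ν ^ 4 * Real.sqrt (T * c i))) atTop
      (𝓝 (64 * C ^ 2 * (D + 3 * Z ^ 4 / ν ^ 4 * Real.sqrt (T * c0)))) :=
    (tendsto_const_nhds.add (h1.const_mul _)).const_mul _
  have h3 := (Real.continuous_exp.tendsto _).comp (h2.const_mul 2)
  have h3' : Tendsto (fun i => Real.exp (2 * (64 * C ^ 2 * (D + 3 * Z ^ 4 / ν ^ 4 * Real.sqrt (T * c i)))))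
    atTop (𝓝 (Real.exp (2 * (64 * C ^ 2 * (D + 3 * Z ^ 4 / ν ^ 4 * Real.sqrt (T * c0)))))) := h3
  refine Tendsto.mul (Tendsto.add (Tendsto.const_mul _ (Tendsto.add tendsto_const_nhds (h2.mul (h3'.const_mul 2)))) (h3'.const_mul 2)) ?_
  exact (((ha.pow 2).div_const 2).add (hb.const_mul _)).add (hc.const_mul _)

theorem psi_near {n nb : ℝ → ℝ} {F Fb : ℝ → K} {x0 xb0 : H} {Z D c : ℝ}
    (hF : MemLp F 2 (volume.restrict (Ioc 0 T)))
    (hFb : MemLp Fb 2 (volume.restrict (Ioc 0 T))) (hn : MemLp n 2 (volume.restrict (Ioc 0 T)))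
    (hnb : MemLp nb 2 (volume.restrict (Ioc 0 T)))
    (h : psi C ν T Z D ‖x0 - xb0‖ (∫ s in Ioc 0 T, ‖F s - Fb s‖ ^ 2)
      (∫ s in Ioc 0 T, ‖n s - nb s‖ ^ 2) < c) :
    ∃ δ : ℝ, 0 < δ ∧ ∀ (n' : ℝ → ℝ) (F' : ℝ → K) (x' : H),
      MemLp n' 2 (volume.restrict (Ioc 0 T)) → MemLp F' 2 (volume.restrict (Ioc 0 T)) →
      ‖x' - x0‖ ≤ δ → ∫ s in Ioc 0 T, ‖F' s - F s‖ ^ 2 ≤ δ →
      ∫ s in Ioc 0 T, ‖n' s - n s‖ ^ 2 ≤ δ →
      psi C ν T Z D ‖x' - xb0‖ (∫ s in Ioc 0 T, ‖F' s - Fb s‖ ^ 2)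
        (∫ s in Ioc 0 T, ‖n' s - nb s‖ ^ 2) < c := by
  by_contra hcon
  push Not at hcon
  have hcon' := fun i : ℕ => hcon (1 / ((i : ℝ) + 1)) (by positivity)
  choose nn FF xx hnn hFF hx hF2 hn2 hbad using hcon'
  have hinv : Tendsto (fun k : ℕ => 1 / ((k : ℝ) + 1)) atTop (𝓝 0) :=
    tendsto_one_div_add_atTop_nhds_zero_nat
  have tx : Tendsto xx atTop (𝓝 x0) := by
    rw [tendsto_iff_norm_sub_tendsto_zero]
    exact squeeze_zero (fun k => norm_nonneg _) hx hinv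
  have tF : Tendsto (fun k => ∫ s in Ioc 0 T, ‖FF k s - F s‖ ^ 2) atTop (𝓝 0) :=
    squeeze_zero (fun k => integral_nonneg fun s => by positivity) hF2 hinv
  have tn : Tendsto (fun k => ∫ s in Ioc 0 T, ‖nn k s - n s‖ ^ 2) atTop (𝓝 0) :=
    squeeze_zero (fun k => integral_nonneg fun s => by positivity) hn2 hinv
  have t2 := psi_tendsto (C := C) (ν := ν) (T := T) (Z := Z) (D := D) ((tx.sub_const xb0).norm)
    (tend_sq hFF hF hFb tF) (tend_sq hnn hn hnb tn)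
  obtain ⟨i, hi⟩ := (t2.eventually_lt_const h).exists
  exact absurd hi (not_lt.mpr (hbad i))

section core

variable {n : ℝ → ℝ} {F : ℝ → K} {x0 : H}

theorem core' (Fr : Frame W m C) (hν : 0 < ν) (hT : 0 < T) (Co : Coef ν T n F)
    (hS : ∀ k : ℕ, ∃ (nb : ℝ → ℝ) (Fb : ℝ → K) (xb0 : H) (ub : ℝ → H) (zb : ℝ → K)
      (ub1 : ℝ → H) (zb1 : ℝ → K) (Z D : ℝ), St W m T nb Fb xb0 ub zb ub1 zb1 Z ∧
      (∀ t ∈ Icc 0 T, ν ≤ nb t) ∧ 1 ≤ Z ∧ (∫ s in Ioc 0 T, ‖zb s‖ ^ 4 / nb s ^ 3 ≤ D) ∧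
      psi C ν T Z D ‖x0 - xb0‖ (∫ s in Ioc 0 T, ‖F s - Fb s‖ ^ 2)
        (∫ s in Ioc 0 T, ‖n s - nb s‖ ^ 2) < 1 / ((k : ℝ) + 1)) :
    ∃ (u : ℝ → H) (z : ℝ → K), WP W m ν T n F x0 u z := by
  choose nn FF xx uu zz uu1 zz1 ZZ DD S hlow hZ hDD hgap using hS
  have hD0 : ∀ k, 0 ≤ DD k := fun k => (D_nonneg hν (hlow k)).trans (hDD k)
  have hCo : ∀ k, Coef ν T (nn k) (FF k) := fun k => st_coef (hlow k) (S k)
  set gg : ℕ → ℝ := fun k => ‖x0 - xx k‖ ^ 2 / 2 + 2 / ν * (∫ s in Ioc 0 T, ‖F s - FF k s‖ ^ 2)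
      + 2 / ν * (ZZ k) ^ 2 * (∫ s in Ioc 0 T, ‖n s - nn k s‖ ^ 2) with hgg
  have hI1 : ∀ k, 0 ≤ ∫ s in Ioc 0 T, ‖F s - FF k s‖ ^ 2 := fun k =>
    integral_nonneg fun s => by positivity
  have hI2 : ∀ k, 0 ≤ ∫ s in Ioc 0 T, ‖n s - nn k s‖ ^ 2 := fun k =>
    integral_nonneg fun s => by positivity
  have hg0 : ∀ k, 0 ≤ gg k := fun k => by
    have := hI1 k
    have := hI2 k
    simp only [hgg]
    positivity
  have hg1 : ∀ k, gg k ≤ 1 / ((k : ℝ) + 1) := by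
    intro k
    have h1 := two_le_kc hν (wb_nonneg (C := C) (ν := ν) (T := T) (Z := ZZ k)
      (c := ∫ s in Ioc 0 T, ‖n s - nn k s‖ ^ 2) (hD0 k))
    have h2 := hg0 k
    have h3 : kc ν (wb C ν T (ZZ k) (DD k) (∫ s in Ioc 0 T, ‖n s - nn k s‖ ^ 2)) * gg k
        < 1 / ((k : ℝ) + 1) := hgap k
    nlinarith
  have hinv : Tendsto (fun k : ℕ => 1 / ((k : ℝ) + 1)) atTop (𝓝 0) :=
    tendsto_one_div_add_atTop_nhds_zero_nat
  have hgt : Tendsto gg atTop (𝓝 0) := squeeze_zero hg0 hg1 hinv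
  have hν2 : 0 < 2 / ν := by positivity
  have hge : ∀ k, gg k = ‖x0 - xx k‖ ^ 2 / 2
      + 2 / ν * (∫ s in Ioc 0 T, ‖F s - FF k s‖ ^ 2)
      + 2 / ν * (ZZ k) ^ 2 * (∫ s in Ioc 0 T, ‖n s - nn k s‖ ^ 2) := fun k => rfl
  -- convergence of the data
  have hx : Tendsto xx atTop (𝓝 x0) := by
    rw [tendsto_iff_norm_sub_tendsto_zero]
    have h1 : Tendsto (fun k => Real.sqrt (2 * gg k))
        atTop (𝓝 (Real.sqrt (2 * 0))) :=
      (Real.continuous_sqrt.tendsto _).comp (hgt.const_mul 2)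
    rw [mul_zero, Real.sqrt_zero] at h1
    refine squeeze_zero (fun k => norm_nonneg _) (fun k => ?_) h1
    refine Real.le_sqrt_of_sq_le ?_
    rw [hge k, norm_sub_rev]
    have a1 := hI1 k
    have a2 := hI2 k
    have a3 : 0 ≤ 2 / ν * (∫ s in Ioc 0 T, ‖F s - FF k s‖ ^ 2) := by positivity
    have a4 : 0 ≤ 2 / ν * (ZZ k) ^ 2 * (∫ s in Ioc 0 T, ‖n s - nn k s‖ ^ 2) := by positivity
    linarith
  have hF : Tendsto (fun k => ∫ s in Ioc 0 T, ‖FF k s - F s‖ ^ 2) atTop (𝓝 0) := by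
    have h1 := hgt.const_mul (ν / 2)
    rw [mul_zero] at h1
    refine squeeze_zero (fun k => integral_nonneg fun s => by positivity) (fun k => ?_) h1
    rw [hge k]
    have e : ∫ s in Ioc 0 T, ‖FF k s - F s‖ ^ 2 = ∫ s in Ioc 0 T, ‖F s - FF k s‖ ^ 2 := by
      refine integral_congr_ae (Eventually.of_forall fun s => ?_)
      simp only [norm_sub_rev]
    rw [e]
    have a1 := hI1 k
    have a2 := hI2 k
    have a3 : 0 ≤ ν / 2 * (‖x0 - xx k‖ ^ 2 / 2) := by positivity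
    have a4 : 0 ≤ ν / 2 * (2 / ν * (ZZ k) ^ 2 * (∫ s in Ioc 0 T, ‖n s - nn k s‖ ^ 2)) := by
      positivity
    have a5 : ν / 2 * (2 / ν * (∫ s in Ioc 0 T, ‖F s - FF k s‖ ^ 2))
        = ∫ s in Ioc 0 T, ‖F s - FF k s‖ ^ 2 := by field_simp
    linarith
  have hn : Tendsto (fun k => ∫ s in Ioc 0 T, ‖nn k s - n s‖ ^ 2) atTop (𝓝 0) := by
    have h1 := hgt.const_mul (ν / 2)
    rw [mul_zero] at h1
    refine squeeze_zero (fun k => integral_nonneg fun s => by positivity) (fun k => ?_) h1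
    rw [hge k]
    have e : ∫ s in Ioc 0 T, ‖nn k s - n s‖ ^ 2 = ∫ s in Ioc 0 T, ‖n s - nn k s‖ ^ 2 := by
      refine integral_congr_ae (Eventually.of_forall fun s => ?_)
      simp only [norm_sub_rev]
    rw [e]
    have a1 := hI1 k
    have a2 := hI2 k
    have a3 : 0 ≤ ν / 2 * (‖x0 - xx k‖ ^ 2 / 2) := by positivity
    have a4 : 0 ≤ ν / 2 * (2 / ν * (∫ s in Ioc 0 T, ‖F s - FF k s‖ ^ 2)) := by
      positivity
    have a5 : ν / 2 * (2 / ν * (ZZ k) ^ 2 * (∫ s in Ioc 0 T, ‖n s - nn k s‖ ^ 2))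
        = (ZZ k) ^ 2 * ∫ s in Ioc 0 T, ‖n s - nn k s‖ ^ 2 := by field_simp
    have a6 : 1 ≤ (ZZ k) ^ 2 := one_le_pow₀ (hZ k)
    nlinarith
  -- the strong solutions form a Cauchy sequence
  have hgk : ∀ k, Tendsto (fun i => psi C ν T (ZZ k) (DD k) ‖xx i - xx k‖
      (∫ s in Ioc 0 T, ‖FF i s - FF k s‖ ^ 2) (∫ s in Ioc 0 T, ‖nn i s - nn k s‖ ^ 2))
      atTop (𝓝 (psi C ν T (ZZ k) (DD k) ‖x0 - xx k‖
      (∫ s in Ioc 0 T, ‖F s - FF k s‖ ^ 2) (∫ s in Ioc 0 T, ‖n s - nn k s‖ ^ 2))) := by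
    intro k
    exact psi_tendsto ((hx.sub_const _).norm)
      (tend_sq (fun i => (hCo i).F2) Co.F2 (hCo k).F2 hF)
      (tend_sq (fun i => (hCo i).n2) Co.n2 (hCo k).n2 hn)
  have hnear : ∀ k, ∀ᶠ i in atTop, (∀ t ∈ Icc 0 T, ‖uu i t - uu k t‖ ^ 2 ≤ 1 / ((k : ℝ) + 1)) ∧
      ∫ s in Ioc 0 T, ‖zz i s - zz k s‖ ^ 2 ≤ 1 / ((k : ℝ) + 1) := by
    intro k
    filter_upwards [(hgk k).eventually_lt_const (hgap k)] with i hi
    obtain ⟨b1, b2, -⟩ := stab' Fr hν hT (hCo i) (st_lh Fr (S i)) (S k) (hlow k) (hDD k) rfl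
    exact ⟨fun t ht => (b1 t ht).trans hi.le, b2.trans hi.le⟩
  have hu : ∀ ε > 0, ∃ N, ∀ j ≥ N, ∀ k ≥ N, ∀ t ∈ Icc 0 T, ‖uu j t - uu k t‖ ≤ ε := by
    intro ε hε
    obtain ⟨k0, hk0⟩ := (hinv.eventually_lt_const (by positivity : (0 : ℝ) < (ε / 2) ^ 2)).exists
    obtain ⟨N, hN⟩ := eventually_atTop.mp (hnear k0)
    have hc : ∀ j ≥ N, ∀ t ∈ Icc 0 T, ‖uu j t - uu k0 t‖ ≤ ε / 2 := by
      intro j hj t ht
      have h1 := ((hN j hj).1 t ht).trans hk0.le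
      exact (pow_le_pow_iff_left₀ (norm_nonneg _) (by positivity) (by norm_num)).mp h1
    refine ⟨N, fun j hj k hk t ht => ?_⟩
    have h1 := hc j hj t ht
    have h2 := hc k hk t ht
    calc ‖uu j t - uu k t‖ = ‖(uu j t - uu k0 t) - (uu k t - uu k0 t)‖ := by congr 1; abel
      _ ≤ ‖uu j t - uu k0 t‖ + ‖uu k t - uu k0 t‖ := norm_sub_le _ _
      _ ≤ ε := by linarith
  have hz : ∀ ε > 0, ∃ N, ∀ j ≥ N, ∀ k ≥ N, ∫ s in Ioc 0 T, ‖zz j s - zz k s‖ ^ 2 ≤ ε := by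
    intro ε hε
    obtain ⟨k0, hk0⟩ := (hinv.eventually_lt_const (by positivity : (0 : ℝ) < ε / 4)).exists
    obtain ⟨N, hN⟩ := eventually_atTop.mp (hnear k0)
    refine ⟨N, fun j hj k hk => ?_⟩
    have mz : ∀ i, MemLp (zz i) 2 (volume.restrict (Ioc 0 T)) := fun i => mem_cont (S i).zc
    have h1 := (hN j hj).2
    have h2 := (hN k hk).2
    have h3 : ∫ s in Ioc 0 T, ‖zz j s - zz k s‖ ^ 2
        ≤ ∫ s in Ioc 0 T, (2 * ‖zz j s - zz k0 s‖ ^ 2 + 2 * ‖zz k s - zz k0 s‖ ^ 2) := by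
      refine integral_mono (sq_int (mz j) (mz k))
        (((sq_int (mz j) (mz k0)).const_mul 2).add ((sq_int (mz k) (mz k0)).const_mul 2)) ?_
      intro s
      show ‖zz j s - zz k s‖ ^ 2 ≤ 2 * ‖zz j s - zz k0 s‖ ^ 2 + 2 * ‖zz k s - zz k0 s‖ ^ 2
      have h4 : ‖zz j s - zz k s‖ ≤ ‖zz j s - zz k0 s‖ + ‖zz k s - zz k0 s‖ := by
        calc ‖zz j s - zz k s‖ = ‖(zz j s - zz k0 s) - (zz k s - zz k0 s)‖ := by congr 1; abel
          _ ≤ _ := norm_sub_le _ _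
      nlinarith [norm_nonneg (zz j s - zz k s), norm_nonneg (zz j s - zz k0 s),
        norm_nonneg (zz k s - zz k0 s), sq_nonneg (‖zz j s - zz k0 s‖ - ‖zz k s - zz k0 s‖)]
    rw [integral_add ((sq_int (mz j) (mz k0)).const_mul 2) ((sq_int (mz k) (mz k0)).const_mul 2),
      integral_const_mul, integral_const_mul] at h3
    linarith
  obtain ⟨u, z, L, hcl, huc, -, -⟩ := limit Fr hν hT S
    (fun k t ht => hν.le.trans (hlow k t ht)) Co hn hF hx hu hz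
  refine ⟨u, z, L, hcl, huc, ?_, ?_, ?_⟩
  · intro t ht
    refine le_antisymm ?_ ?_
    · refine ge_of_tendsto' hinv fun k => ?_
      obtain ⟨-, -, b3⟩ := stab' Fr hν hT Co L (S k) (hlow k) (hDD k) rfl
      exact (b3 t ht).trans (hgap k).le
    · unfold dft
      linarith [L.energy t ht]
  · intro u' z' L'
    constructor
    · intro t ht
      have h1 : ‖u' t - u t‖ ^ 2 ≤ 0 := by
        have h2 : Tendsto (fun k : ℕ => 4 * (1 / ((k : ℝ) + 1))) atTop (𝓝 (4 * 0)) :=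
          hinv.const_mul 4
        rw [mul_zero] at h2
        refine ge_of_tendsto' h2 fun k => ?_
        obtain ⟨b1, -, -⟩ := stab' Fr hν hT Co L (S k) (hlow k) (hDD k) rfl
        obtain ⟨b1', -, -⟩ := stab' Fr hν hT Co L' (S k) (hlow k) (hDD k) rfl
        have h3 := (b1 t ht).trans (hgap k).le
        have h4 := (b1' t ht).trans (hgap k).le
        have h5 : ‖u' t - u t‖ ≤ ‖u' t - uu k t‖ + ‖u t - uu k t‖ := by
          calc ‖u' t - u t‖ = ‖(u' t - uu k t) - (u t - uu k t)‖ := by congr 1; abel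
            _ ≤ _ := norm_sub_le _ _
        nlinarith [norm_nonneg (u' t - u t), norm_nonneg (u' t - uu k t),
          norm_nonneg (u t - uu k t), sq_nonneg (‖u' t - uu k t‖ - ‖u t - uu k t‖)]
      have h2 : ‖u' t - u t‖ = 0 := by
        have := sq_nonneg ‖u' t - u t‖
        exact pow_eq_zero_iff (two_ne_zero) |>.mp (le_antisymm h1 this)
      exact sub_eq_zero.mp (norm_eq_zero.mp h2)
    · have h1 : ∫ s in Ioc 0 T, ‖z' s - z s‖ ^ 2 = 0 := by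
        refine le_antisymm ?_ (integral_nonneg fun s => by positivity)
        have h2 : Tendsto (fun k : ℕ => 4 * (1 / ((k : ℝ) + 1))) atTop (𝓝 (4 * 0)) :=
          hinv.const_mul 4
        rw [mul_zero] at h2
        refine ge_of_tendsto' h2 fun k => ?_
        obtain ⟨-, b2, -⟩ := stab' Fr hν hT Co L (S k) (hlow k) (hDD k) rfl
        obtain ⟨-, b2', -⟩ := stab' Fr hν hT Co L' (S k) (hlow k) (hDD k) rfl
        have h3 := b2.trans (hgap k).le
        have h4 := b2'.trans (hgap k).le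
        have mk : MemLp (zz k) 2 (volume.restrict (Ioc 0 T)) := mem_cont (S k).zc
        have h5 : ∫ s in Ioc 0 T, ‖z' s - z s‖ ^ 2
            ≤ ∫ s in Ioc 0 T, (2 * ‖z' s - zz k s‖ ^ 2 + 2 * ‖z s - zz k s‖ ^ 2) := by
          refine integral_mono (sq_int L'.z2 L.z2)
            (((sq_int L'.z2 mk).const_mul 2).add ((sq_int L.z2 mk).const_mul 2)) ?_
          intro s
          show ‖z' s - z s‖ ^ 2 ≤ 2 * ‖z' s - zz k s‖ ^ 2 + 2 * ‖z s - zz k s‖ ^ 2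
          have h6 : ‖z' s - z s‖ ≤ ‖z' s - zz k s‖ + ‖z s - zz k s‖ := by
            calc ‖z' s - z s‖ = ‖(z' s - zz k s) - (z s - zz k s)‖ := by congr 1; abel
              _ ≤ _ := norm_sub_le _ _
          nlinarith [norm_nonneg (z' s - z s), norm_nonneg (z' s - zz k s),
            norm_nonneg (z s - zz k s), sq_nonneg (‖z' s - zz k s‖ - ‖z s - zz k s‖)]
        rw [integral_add ((sq_int L'.z2 mk).const_mul 2) ((sq_int L.z2 mk).const_mul 2),
          integral_const_mul, integral_const_mul] at h5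
        linarith
      have h2 := (integral_eq_zero_iff_of_nonneg (fun s => by positivity)
        (sq_int L'.z2 L.z2)).mp h1
      filter_upwards [h2] with s hs
      have h3 : ‖z' s - z s‖ ^ 2 = 0 := hs
      exact sub_eq_zero.mp (norm_eq_zero.mp (pow_eq_zero_iff (two_ne_zero) |>.mp h3))
  · intro ε hε
    obtain ⟨k, hk1, hk2⟩ := ((hinv.eventually_lt_const
      (by positivity : (0 : ℝ) < (ε / 2) ^ 2)).and (hinv.eventually_lt_const
      (by positivity : (0 : ℝ) < ε / 4))).exists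
    obtain ⟨δ, hδ, hd⟩ := psi_near Co.F2 (hCo k).F2 Co.n2 (hCo k).n2 (hgap k)
    refine ⟨δ, hδ, fun n' F' x' u' z' Co' L' e1 e2 e3 => ?_⟩
    have hg' := hd n' F' x' Co'.n2 Co'.F2 e1 e2 e3
    obtain ⟨b1, b2, -⟩ := stab' Fr hν hT Co L (S k) (hlow k) (hDD k) rfl
    obtain ⟨b1', b2', b3'⟩ := stab' Fr hν hT Co' L' (S k) (hlow k) (hDD k) rfl
    refine ⟨fun t ht => ?_, ?_, fun t ht => ?_⟩
    · have h3 := ((b1 t ht).trans (hgap k).le).trans hk1.le
      have h4 := ((b1' t ht).trans hg'.le).trans hk1.le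
      have h6 := (pow_le_pow_iff_left₀ (norm_nonneg _) (by positivity) (by norm_num)).mp h3
      have h7 := (pow_le_pow_iff_left₀ (norm_nonneg _) (by positivity) (by norm_num)).mp h4
      calc ‖u' t - u t‖ = ‖(u' t - uu k t) - (u t - uu k t)‖ := by congr 1; abel
        _ ≤ ‖u' t - uu k t‖ + ‖u t - uu k t‖ := norm_sub_le _ _
        _ ≤ ε := by linarith
    · have h3 := (b2.trans (hgap k).le).trans hk2.le
      have h4 := (b2'.trans hg'.le).trans hk2.le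
      have mk : MemLp (zz k) 2 (volume.restrict (Ioc 0 T)) := mem_cont (S k).zc
      have h5 : ∫ s in Ioc 0 T, ‖z' s - z s‖ ^ 2
          ≤ ∫ s in Ioc 0 T, (2 * ‖z' s - zz k s‖ ^ 2 + 2 * ‖z s - zz k s‖ ^ 2) := by
        refine integral_mono (sq_int L'.z2 L.z2)
          (((sq_int L'.z2 mk).const_mul 2).add ((sq_int L.z2 mk).const_mul 2)) ?_
        intro s
        show ‖z' s - z s‖ ^ 2 ≤ 2 * ‖z' s - zz k s‖ ^ 2 + 2 * ‖z s - zz k s‖ ^ 2
        have h6 : ‖z' s - z s‖ ≤ ‖z' s - zz k s‖ + ‖z s - zz k s‖ := by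
          calc ‖z' s - z s‖ = ‖(z' s - zz k s) - (z s - zz k s)‖ := by congr 1; abel
            _ ≤ _ := norm_sub_le _ _
        nlinarith [norm_nonneg (z' s - z s), norm_nonneg (z' s - zz k s),
          norm_nonneg (z s - zz k s), sq_nonneg (‖z' s - zz k s‖ - ‖z s - zz k s‖)]
      rw [integral_add ((sq_int L'.z2 mk).const_mul 2) ((sq_int L.z2 mk).const_mul 2),
        integral_const_mul, integral_const_mul] at h5
      linarith
    · exact ((b3' t ht).trans hg'.le).trans (by linarith)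

end core

end Pool.Agent.H319R3.GW
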