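import Mathlib
import Pool.Agent.H319R3.GW.Core

/-!
Approximation of rough data by smooth compatible data.
-/

set_option linter.unusedSectionVars false

open MeasureTheory Set Filter Topology Metric
open scoped InnerProductSpace NNReal ENNReal ContDiff

namespace Pool.Agent.H319R3.GW

open H772R2.NSR (Frame grad_unique prim_cont)
open H772R2.NSG
open Pool.Agent.H319R3.GV

variable {H K : Type*} [NormedAddCommGroup H] [InnerProductSpace ℝ H] [CompleteSpace H]
  [NormedAddCommGroup K] [InnerProductSpace ℝ K] [CompleteSpace K]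

variable {W : Submodule ℝ (H × K)} {m : H → K} {C : ℝ} {ν T : ℝ}

theorem exp_small {θ : ℝ} (hθ : 0 < θ) (hT : 0 < T) :
    ∫ s in Ioc 0 T, (Real.exp (-s / θ)) ^ 2 ≤ θ / 2 := by
  have h1 : ∀ x : ℝ, HasDerivAt (fun s => -(θ / 2) * Real.exp (-(2 * s) / θ))
      ((Real.exp (-x / θ)) ^ 2) x := by
    intro x
    have h2 : HasDerivAt (fun s : ℝ => -(2 * s) / θ) (-(2 * 1) / θ) x :=
      (((hasDerivAt_id x).const_mul 2).neg).div_const θ
    have h3 := (h2.exp).const_mul (-(θ / 2))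
    convert! h3 using 1
    rw [← Real.exp_nat_mul]
    field_simp
    congr 1
    push_cast
    ring
  have h2 : ∫ s in (0 : ℝ)..T, (Real.exp (-s / θ)) ^ 2
      = -(θ / 2) * Real.exp (-(2 * T) / θ) - -(θ / 2) * Real.exp (-(2 * 0) / θ) := by
    refine intervalIntegral.integral_eq_sub_of_hasDerivAt (fun x _ => h1 x) ?_
    exact (by fun_prop : Continuous fun s : ℝ => (Real.exp (-s / θ)) ^ 2).intervalIntegrable _ _
  rw [← intervalIntegral.integral_of_le hT.le, h2]
  have h3 := Real.exp_pos (-(2 * T) / θ)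
  have h4 : Real.exp (-(2 * 0) / θ) = 1 := by simp
  rw [h4]
  nlinarith

theorem approx_force {F : ℝ → K} (hT : 0 < T) (hF : MemLp F 2 (volume.restrict (Ioc 0 T)))
    (a : K) {δ : ℝ} (hδ : 0 < δ) :
    ∃ Fb F1 : ℝ → K, Fb 0 = a ∧ MemLp F1 2 (volume.restrict (Ioc 0 T)) ∧
      (∀ a b, 0 ≤ a → a ≤ b → b ≤ T → Fb b - Fb a = ∫ s in a..b, F1 s) ∧
      ∫ s in Ioc 0 T, ‖F s - Fb s‖ ^ 2 ≤ δ := by
  obtain ⟨g, hg1, hg2, hg3⟩ := hF.exist_eLpNorm_sub_le (by norm_num) (by norm_num)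
    (ε := Real.sqrt (δ / 4)) (by positivity)
  set v : K := a - g 0 with hv
  set θ : ℝ := δ / (2 * (‖v‖ ^ 2 + 1)) with hθ
  have hθ0 : 0 < θ := by positivity
  let Fb : ℝ → K := fun t => g t + Real.exp (-t / θ) • v
  let F1 : ℝ → K := fun t => deriv g t + (Real.exp (-t / θ) * (-1 / θ)) • v
  have hgd : Differentiable ℝ g := hg2.differentiable (by simp)
  have hgc : Continuous (deriv g) := hg2.continuous_deriv (by simp)
  have hd : ∀ t, HasDerivAt Fb (F1 t) t := by
    intro t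
    have h2 : HasDerivAt (fun s : ℝ => -s / θ) (-1 / θ) t :=
      ((hasDerivAt_id t).neg).div_const θ
    exact ((hgd t).hasDerivAt).add ((h2.exp).smul_const v)
  have hF1c : Continuous F1 := by fun_prop
  have hFbc : Continuous Fb := by
    have := hg2.continuous
    fun_prop
  refine ⟨Fb, F1, ?_, mem_cont hF1c.continuousOn, ?_, ?_⟩
  · show g 0 + Real.exp (-0 / θ) • v = a
    simp [hv]
  · intro a b _ _ _
    exact (intervalIntegral.integral_eq_sub_of_hasDerivAt (fun x _ => hd x)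
      (hF1c.intervalIntegrable _ _)).symm
  · have hgm : MemLp g 2 (volume.restrict (Ioc 0 T)) := mem_cont hg2.continuous.continuousOn
    have hFg : MemLp (fun s => F s - g s) 2 (volume.restrict (Ioc 0 T)) := hF.sub hgm
    have h1 : ∫ s in Ioc 0 T, ‖F s - g s‖ ^ 2 ≤ δ / 4 := by
      have h2 := hFg.eLpNorm_eq_integral_rpow_norm (by norm_num) (by norm_num)
      have h3 : eLpNorm (fun s => F s - g s) 2 (volume.restrict (Ioc 0 T))
          ≤ ENNReal.ofReal (Real.sqrt (δ / 4)) := hg3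
      rw [h2] at h3
      have h4 := (ENNReal.ofReal_le_ofReal_iff (Real.sqrt_nonneg _)).mp h3
      simp only [ENNReal.toReal_ofNat, Real.rpow_ofNat] at h4
      have h5 : (0 : ℝ) ≤ ∫ s in Ioc 0 T, ‖F s - g s‖ ^ 2 := integral_nonneg fun s => by positivity
      have h6 : ((∫ s in Ioc 0 T, ‖F s - g s‖ ^ 2) ^ ((2 : ℝ)⁻¹)) ^ 2
          ≤ (Real.sqrt (δ / 4)) ^ 2 := by
        have : 0 ≤ (∫ s in Ioc 0 T, ‖F s - g s‖ ^ 2) ^ ((2 : ℝ)⁻¹) := by positivity
        gcongr
      rw [Real.sq_sqrt (by positivity), ← Real.rpow_natCast, ← Real.rpow_mul h5] at h6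
      simpa using h6
    have hem : MemLp (fun s => Real.exp (-s / θ) • v) 2 (volume.restrict (Ioc 0 T)) :=
      mem_cont (by fun_prop)
    have h2 : ∫ s in Ioc 0 T, ‖F s - Fb s‖ ^ 2
        ≤ ∫ s in Ioc 0 T, (2 * ‖F s - g s‖ ^ 2 + 2 * (‖v‖ ^ 2 * (Real.exp (-s / θ)) ^ 2)) := by
      have i1 : Integrable (fun s => ‖F s - g s‖ ^ 2) (volume.restrict (Ioc 0 T)) :=
        sq_int hF hgm
      have i2 : Integrable (fun s => (Real.exp (-s / θ)) ^ 2) (volume.restrict (Ioc 0 T)) :=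
        (mem_cont (p := 1) (by fun_prop)).integrable le_rfl
      refine integral_mono (sq_int hF (mem_cont hFbc.continuousOn))
        ((i1.const_mul 2).add ((i2.const_mul _).const_mul 2)) ?_
      intro s
      show ‖F s - (g s + Real.exp (-s / θ) • v)‖ ^ 2
        ≤ 2 * ‖F s - g s‖ ^ 2 + 2 * (‖v‖ ^ 2 * (Real.exp (-s / θ)) ^ 2)
      have h3 : ‖F s - (g s + Real.exp (-s / θ) • v)‖ ≤ ‖F s - g s‖ + Real.exp (-s / θ) * ‖v‖ := by
        rw [← sub_sub]
        refine (norm_sub_le _ _).trans ?_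
        rw [norm_smul, Real.norm_eq_abs, abs_of_pos (Real.exp_pos _)]
      have h4 : 0 ≤ Real.exp (-s / θ) * ‖v‖ := by positivity
      nlinarith [norm_nonneg (F s - (g s + Real.exp (-s / θ) • v)), norm_nonneg (F s - g s),
        sq_nonneg (‖F s - g s‖ - Real.exp (-s / θ) * ‖v‖)]
    have i1 : Integrable (fun s => ‖F s - g s‖ ^ 2) (volume.restrict (Ioc 0 T)) :=
      sq_int hF hgm
    have i2 : Integrable (fun s => (Real.exp (-s / θ)) ^ 2) (volume.restrict (Ioc 0 T)) :=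
      (mem_cont (p := 1) (by fun_prop)).integrable le_rfl
    rw [integral_add (i1.const_mul 2) ((i2.const_mul _).const_mul 2), integral_const_mul,
      integral_const_mul, integral_const_mul] at h2
    have h5 := exp_small (T := T) hθ0 hT
    have h6 : 2 * (‖v‖ ^ 2 * (θ / 2)) ≤ δ / 2 := by
      rw [hθ]
      have : 2 * (‖v‖ ^ 2 * (δ / (2 * (‖v‖ ^ 2 + 1)) / 2)) = (δ / 2) * (‖v‖ ^ 2 / (‖v‖ ^ 2 + 1)) := by
        field_simp
      rw [this]
      have h7 : ‖v‖ ^ 2 / (‖v‖ ^ 2 + 1) ≤ 1 := by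
        rw [div_le_one (by positivity)]; linarith
      nlinarith
    have h7 : ‖v‖ ^ 2 * (∫ s in Ioc 0 T, (Real.exp (-s / θ)) ^ 2) ≤ ‖v‖ ^ 2 * (θ / 2) := by gcongr
    linarith

end Pool.Agent.H319R3.GW
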