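import Mathlib
import Pool.Agent.H319R3.GW.Data

/-!
Strong solutions for data close to rough data, with a bound of `∫ ‖∇u‖⁴ / n³` that does not depend
on the approximation.
-/

set_option linter.unusedSectionVars false

open MeasureTheory Set Filter Topology Metric
open scoped InnerProductSpace NNReal ENNReal ContDiff

namespace Pool.Agent.H319R3.GW

open H772R2.NSR (Frame grad_unique prim_cont prim_shift ec ec_nonneg muf muf_nonneg visc_muf cost5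
  ii_of_cont)
open H772R2.NSG
open Pool.Agent.H319R3.GV

variable {H K : Type*} [NormedAddCommGroup H] [InnerProductSpace ℝ H] [CompleteSpace H]
  [NormedAddCommGroup K] [InnerProductSpace ℝ K] [CompleteSpace K]

variable {W : Submodule ℝ (H × K)} {m : H → K} {C : ℝ} {ν T : ℝ}

theorem visc_up {μ : ℝ → ℝ} {A M : ℝ} (hν : 0 < ν) (V : H772R2.NSR.Visc ν μ A M) :
    H772R2.NSG.Visc ν μ A M where
  A0 := V.A0
  M0 := V.M0
  nonneg := V.nonneg
  mono := V.mono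
  lip := V.lip
  key := fun s hs => by
    refine (V.key s hs).trans ?_
    have h1 := lg_one_le hs
    have h2 := V.nonneg s hs
    have h3 := V.A0
    have : 0 ≤ A * (ν + μ s) ^ 3 * (1 + μ s * s ^ 2) := by positivity
    nlinarith

theorem strong_rough (Fr : Frame W m C) (hν : 0 < ν) (hT : 0 < T)
    (hcomp : ∀ R : ℝ, TotallyBounded {v : H | ∃ z, (v, z) ∈ W ∧ ‖z‖ ≤ R})
    {n1 : ℝ → ℝ} {B : ℝ} (N : Base n1 ν T B)
    {F : ℝ → K} (hF : MemLp F 2 (volume.restrict (Ioc 0 T))) {x0 : H}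
    (hx0 : x0 ∈ closure {x : H | ∃ y, (x, y) ∈ W}) {η : ℝ} (hη : 0 < η) :
    ∃ D : ℝ, 0 ≤ D ∧ ∀ δ : ℝ, 0 < δ → ∃ (nb : ℝ → ℝ) (Fb : ℝ → K) (xb0 : H) (ub : ℝ → H)
      (zb : ℝ → K) (ub1 : ℝ → H) (zb1 : ℝ → K) (Z : ℝ), St W m T nb Fb xb0 ub zb ub1 zb1 Z ∧
      (∀ t ∈ Icc 0 T, ν ≤ nb t) ∧ 1 ≤ Z ∧ (∫ s in Ioc 0 T, ‖zb s‖ ^ 4 / nb s ^ 3 ≤ D) ∧
      ‖x0 - xb0‖ ≤ δ ∧ (∫ s in Ioc 0 T, ‖F s - Fb s‖ ^ 2 ≤ δ) ∧
      eLpNorm (nb - n1) 5 (volume.restrict (Ioc 0 T)) ≤ ENNReal.ofReal η := by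
  have h0T : (0 : ℝ) ∈ Icc 0 T := ⟨le_rfl, hT.le⟩
  set I0 : ℝ := ∫ s in Ioc 0 T, ‖F s‖ ^ 2 with hI0
  have hI00 : 0 ≤ I0 := integral_nonneg fun s => by positivity
  set E : ℝ := (‖x0‖ + 1) ^ 2 / 2 + (2 * I0 + 2) / (2 * ν) with hE
  have hE0 : 0 < E := by positivity
  set κ : ℝ := min 1 (η ^ 5 / (E + 1)) with hκ
  have hκ0 : 0 < κ := lt_min one_pos (by positivity)
  have hκ1 : κ ≤ 1 := min_le_left _ _
  have hκE : κ ^ 4 * E ≤ η ^ 5 := by
    have h1 : κ ^ 4 ≤ κ := by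
      calc κ ^ 4 ≤ κ ^ 1 := pow_le_pow_of_le_one hκ0.le hκ1 (by norm_num)
        _ = κ := pow_one κ
    calc κ ^ 4 * E ≤ κ * (E + 1) := by gcongr; linarith
      _ ≤ η ^ 5 / (E + 1) * (E + 1) := by gcongr; exact min_le_right _ _
      _ = η ^ 5 := by field_simp
  have V0 := visc_muf (ν := ν) hκ0 one_pos hν
  set A : ℝ := 256 * 1 ^ 4 / ν ^ 3 + 16 / κ ^ 4 with hA
  have V := visc_up hν V0
  have hA0 : 0 ≤ A := V.A0
  refine ⟨A * (T + E), by positivity, fun δ hδ => ?_⟩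
  set δ' : ℝ := min δ 1 with hδ'
  have hδ'0 : 0 < δ' := lt_min hδ one_pos
  obtain ⟨xb0, ⟨z0, h0⟩, hx⟩ := Metric.mem_closure_iff.mp hx0 δ' hδ'0
  rw [dist_eq_norm] at hx
  obtain ⟨Fb, F1, hFb0, hF1, hFp, hFF⟩ := approx_force hT hF
    ((n1 0 + muf κ 1 ‖z0‖) • z0 - m xb0) hδ'0
  have hFc := prim_cont hF1 hFp
  have hFb2 := mem_cont (p := 2) hFc
  have hec : ec ν T ‖xb0‖ Fb ≤ E := by
    unfold ec
    have h1 : ‖xb0‖ ≤ ‖x0‖ + 1 := by
      have h2 : ‖xb0‖ ≤ ‖x0‖ + ‖x0 - xb0‖ := by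
        calc ‖xb0‖ = ‖x0 - (x0 - xb0)‖ := by congr 1; abel
          _ ≤ _ := norm_sub_le _ _
      have h3 : δ' ≤ 1 := min_le_right _ _
      linarith
    have h2 : ∫ s in (0 : ℝ)..T, ‖Fb s‖ ^ 2 ≤ 2 * I0 + 2 := by
      rw [intervalIntegral.integral_of_le hT.le]
      have iF : Integrable (fun s => ‖F s‖ ^ 2) (volume.restrict (Ioc 0 T)) :=
        (memLp_two_iff_integrable_sq_norm hF.aestronglyMeasurable).mp hF
      have iB : Integrable (fun s => ‖Fb s‖ ^ 2) (volume.restrict (Ioc 0 T)) :=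
        (memLp_two_iff_integrable_sq_norm hFb2.aestronglyMeasurable).mp hFb2
      have iD := sq_int hF hFb2
      have h3 : ∫ s in Ioc 0 T, ‖Fb s‖ ^ 2
          ≤ ∫ s in Ioc 0 T, (2 * ‖F s‖ ^ 2 + 2 * ‖F s - Fb s‖ ^ 2) := by
        refine integral_mono iB ((iF.const_mul 2).add (iD.const_mul 2)) ?_
        intro s
        show ‖Fb s‖ ^ 2 ≤ 2 * ‖F s‖ ^ 2 + 2 * ‖F s - Fb s‖ ^ 2
        have h4 : ‖Fb s‖ ≤ ‖F s‖ + ‖F s - Fb s‖ := by
          calc ‖Fb s‖ = ‖F s - (F s - Fb s)‖ := by congr 1; abel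
            _ ≤ _ := norm_sub_le _ _
        nlinarith [norm_nonneg (Fb s), norm_nonneg (F s), norm_nonneg (F s - Fb s),
          sq_nonneg (‖F s‖ - ‖F s - Fb s‖)]
      rw [integral_add (iF.const_mul 2) (iD.const_mul 2), integral_const_mul,
        integral_const_mul] at h3
      have h5 : δ' ≤ 1 := min_le_right _ _
      linarith
    rw [hE]
    gcongr
  obtain ⟨u, u', z, c1, c2, hu0, Sl⟩ := exists_sln Fr V N hν hT hFc
    (Φ := ∫ s in (0 : ℝ)..T, ‖F1 s‖ ^ 2)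
    (intervalIntegral.integral_nonneg hT.le (fun s _ => by positivity))
    (prim_shift hF1 hFp) hcomp h0 (g0 := 0) (by
      intro p hp
      rw [hFb0]
      simp)
  obtain ⟨u1, z1, k1, k2, k3, k4, k5⟩ := Sl.derivs Fr.closedW hT
  have hlamc : ContinuousOn (fun t => muf κ 1 ‖z t‖) (Icc 0 T) := by
    intro t ht
    rw [ContinuousWithinAt, tendsto_iff_norm_sub_tendsto_zero]
    have h1 : Tendsto (fun s => (κ * (2 * Real.sqrt 1)⁻¹) * ‖z s - z t‖) (𝓝[Icc 0 T] t)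
        (𝓝 ((κ * (2 * Real.sqrt 1)⁻¹) * 0)) :=
      ((tendsto_iff_norm_sub_tendsto_zero.mp (Sl.zc t ht))).const_mul _
    rw [mul_zero] at h1
    refine squeeze_zero' (Eventually.of_forall fun s => norm_nonneg _) ?_ h1
    filter_upwards [self_mem_nhdsWithin] with s hs
    exact (V.lip _ _ (norm_nonneg _) (norm_nonneg _)).trans
      (mul_le_mul_of_nonneg_left (abs_norm_sub_norm_le _ _) V.M0)
  have hl0 : ∀ t, 0 ≤ muf κ 1 ‖z t‖ := fun t => muf_nonneg hκ0.le _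
  have hz2 : ContinuousOn (fun t => ‖z t‖ ^ 2) (Icc 0 T) := Sl.zc.norm.pow 2
  have hdis : ContinuousOn (fun t => muf κ 1 ‖z t‖ * ‖z t‖ ^ 2) (Icc 0 T) := hlamc.mul hz2
  have hI := Sl.dissip
  have hnc : ContinuousOn (fun t => n1 t + muf κ 1 ‖z t‖) (Icc 0 T) := N.cont.add hlamc
  have hlow : ∀ t ∈ Icc 0 T, ν ≤ n1 t + muf κ 1 ‖z t‖ := fun t ht => by
    have := N.low t ht
    have := hl0 t
    linarith
  obtain ⟨Z, hZ⟩ := (isCompact_Icc.image_of_continuousOn Sl.zc).isBounded.exists_norm_le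
  refine ⟨fun t => n1 t + muf κ 1 ‖z t‖, Fb, xb0, u, z, u1, z1, max Z 1, ?_, hlow,
    le_max_right _ _, ?_, hx.le.trans (min_le_left _ _), hFF.trans (min_le_left _ _), ?_⟩
  · constructor
    · exact hu0
    · exact Sl.mem
    · exact k1
    · exact k2
    · exact k3
    · exact k4
    · filter_upwards [k5] with s hs
      exact hs.1
    · exact hnc
    · exact hFc
    · intro q hq t ht
      rw [← hu0]
      exact Sl.weak q hq 0 t le_rfl ht.1 ht.2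
    · intro t ht
      rw [← hu0]
      exact Sl.energy t ht
    · intro t ht
      exact (hZ _ ⟨t, ht, rfl⟩).trans (le_max_left _ _)
  · have h1 : ∀ s ∈ Ioc 0 T, ‖z s‖ ^ 4 / (n1 s + muf κ 1 ‖z s‖) ^ 3
        ≤ A * (1 + muf κ 1 ‖z s‖ * ‖z s‖ ^ 2) := by
      intro s hs
      have hs' := Ioc_subset_Icc_self hs
      have h2 := V0.key ‖z s‖ (norm_nonneg _)
      have h3 : ν + muf κ 1 ‖z s‖ ≤ n1 s + muf κ 1 ‖z s‖ := by
        have := N.low s hs'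
        linarith
      have h4 : 0 < ν + muf κ 1 ‖z s‖ := by have := hl0 s; linarith
      have h5 := hl0 s
      rw [div_le_iff₀ (by have := h4.trans_le h3; positivity)]
      calc ‖z s‖ ^ 4 ≤ A * (ν + muf κ 1 ‖z s‖) ^ 3 * (1 + muf κ 1 ‖z s‖ * ‖z s‖ ^ 2) := h2
        _ ≤ A * (n1 s + muf κ 1 ‖z s‖) ^ 3 * (1 + muf κ 1 ‖z s‖ * ‖z s‖ ^ 2) := by gcongr
        _ = _ := by ring
    have i1 : Integrable (fun s => ‖z s‖ ^ 4 / (n1 s + muf κ 1 ‖z s‖) ^ 3)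
        (volume.restrict (Ioc 0 T)) := by
      refine (mem_cont (p := 1) ?_).integrable le_rfl
      exact (Sl.zc.norm.pow 4).div (hnc.pow 3) fun s hs => by
        have : 0 < n1 s + muf κ 1 ‖z s‖ := hν.trans_le (hlow s hs)
        positivity
    have i2 : Integrable (fun s => muf κ 1 ‖z s‖ * ‖z s‖ ^ 2) (volume.restrict (Ioc 0 T)) :=
      (mem_cont (p := 1) hdis).integrable le_rfl
    have h6 : ∫ s in Ioc 0 T, ‖z s‖ ^ 4 / (n1 s + muf κ 1 ‖z s‖) ^ 3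
        ≤ ∫ s in Ioc 0 T, A * (1 + muf κ 1 ‖z s‖ * ‖z s‖ ^ 2) := by
      refine integral_mono_ae i1 (((integrable_const 1).add i2).const_mul A) ?_
      filter_upwards [ae_restrict_mem measurableSet_Ioc] with s hs
      exact h1 s hs
    refine h6.trans ?_
    rw [integral_const_mul, integral_add (integrable_const 1) i2]
    have h7 : ∫ _s in Ioc 0 T, (1 : ℝ) = T := by simp [hT.le]
    rw [h7]
    rw [intervalIntegral.integral_of_le hT.le] at hI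
    have h8 := hI.trans hec
    gcongr
  · have hlamm : MemLp (fun t => muf κ 1 ‖z t‖) 5 (volume.restrict (Ioc 0 T)) := mem_cont hlamc
    have e : (fun t => n1 t + muf κ 1 ‖z t‖) - n1 = fun t => muf κ 1 ‖z t‖ := by
      ext t; simp
    rw [e]
    refine eLpNorm_five_le hlamm hη.le ?_
    have h1 : ∫ s in Ioc 0 T, ‖muf κ 1 ‖z s‖‖ ^ 5
        ≤ ∫ s in Ioc 0 T, κ ^ 4 * (muf κ 1 ‖z s‖ * ‖z s‖ ^ 2) := by
      refine integral_mono ?_ (((mem_cont (p := 1) hdis).integrable le_rfl).const_mul _) ?_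
      · exact (mem_cont (p := 1) (hlamc.norm.pow 5)).integrable le_rfl
      · intro s
        show ‖muf κ 1 ‖z s‖‖ ^ 5 ≤ κ ^ 4 * (muf κ 1 ‖z s‖ * ‖z s‖ ^ 2)
        rw [Real.norm_eq_abs, abs_of_nonneg (hl0 s)]
        exact cost5 hκ0 (norm_nonneg _)
    refine h1.trans ?_
    rw [integral_const_mul]
    rw [intervalIntegral.integral_of_le hT.le] at hI
    have h8 := hI.trans hec
    calc κ ^ 4 * ∫ s in Ioc 0 T, muf κ 1 ‖z s‖ * ‖z s‖ ^ 2 ≤ κ ^ 4 * E := by gcongr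
      _ ≤ η ^ 5 := hκE

end Pool.Agent.H319R3.GW
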