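import Mathlib
import Pool.Agent.H319R3.GW.Rough
import Pool.Agent.H319R3.GV.Baire

/-!
Generic viscosities for rough data.
-/

set_option linter.unusedSectionVars false

open MeasureTheory Set Filter Topology Metric
open scoped InnerProductSpace NNReal ENNReal

namespace Pool.Agent.H319R3.GW

open H772R2.NSR (Frame grad_unique prim_cont)
open H772R2.NSG
open Pool.Agent.H319R3.GV

variable {H K : Type*} [NormedAddCommGroup H] [InnerProductSpace ℝ H] [CompleteSpace H]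
  [NormedAddCommGroup K] [InnerProductSpace ℝ K] [CompleteSpace K]

variable {W : Submodule ℝ (H × K)} {m : H → K} {C : ℝ} {ν T : ℝ}
variable {p : ℝ≥0∞} [Fact (1 ≤ p)]

/-- The perturbations close to a strongly solvable one. -/
def UV (W : Submodule ℝ (H × K)) (m : H → K) (C ν T : ℝ) (F : ℝ → K) (x0 : H) (c : ℝ) :
    Set (XX p) :=
  {f | ∃ (nb : ℝ → ℝ) (Fb : ℝ → K) (xb0 : H) (ub : ℝ → H) (zb : ℝ → K) (ub1 : ℝ → H)
    (zb1 : ℝ → K) (Z D : ℝ),
    St W m T nb Fb xb0 ub zb ub1 zb1 Z ∧ (∀ t ∈ Icc 0 T, ν ≤ nb t) ∧ 1 ≤ Z ∧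
    (∫ s in Ioc 0 T, ‖zb s‖ ^ 4 / nb s ^ 3 ≤ D) ∧
    psi C ν T Z D ‖x0 - xb0‖ (∫ s in Ioc 0 T, ‖F s - Fb s‖ ^ 2)
      (∫ s in Ioc 0 T, ‖(ν + f.1 s) - nb s‖ ^ 2) < c}

theorem uv_open (hp2 : 2 ≤ p) {F : ℝ → K} {x0 : H} {c : ℝ} :
    IsOpen (UV (p := p) W m C ν T F x0 c) := by
  rw [isOpen_iff_mem_nhds]
  rintro f ⟨nb, Fb, xb0, ub, zb, ub1, zb1, Z, D, S, h1, h2, h3, h4⟩
  have hnb : MemLp (fun s => nb s - ν) 2 (volume.restrict (Ioc 0 T)) :=
    mem_cont (S.nc.sub continuousOn_const)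
  have hc : Continuous fun g : XX p => ‖Phi hp2 T g.1 - hnb.toLp _‖ ^ 2 := by
    have h5 : Continuous fun g : XX p => Phi hp2 T g.1 :=
      (phi_cont (p := p) hp2 T).comp continuous_subtype_val
    exact ((h5.sub continuous_const).norm).pow 2
  have hcc : Continuous fun x : ℝ => psi C ν T Z D ‖x0 - xb0‖
      (∫ s in Ioc 0 T, ‖F s - Fb s‖ ^ 2) x := by
    unfold psi kc wb
    fun_prop
  have hcf : Continuous fun g : XX p => psi C ν T Z D ‖x0 - xb0‖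
      (∫ s in Ioc 0 T, ‖F s - Fb s‖ ^ 2) (‖Phi hp2 T g.1 - hnb.toLp _‖ ^ 2) := hcc.comp hc
  have ho : IsOpen {g : XX p | psi C ν T Z D ‖x0 - xb0‖
      (∫ s in Ioc 0 T, ‖F s - Fb s‖ ^ 2) (‖Phi hp2 T g.1 - hnb.toLp _‖ ^ 2) < c} :=
    isOpen_lt hcf continuous_const
  have hm : f ∈ {g : XX p | psi C ν T Z D ‖x0 - xb0‖
      (∫ s in Ioc 0 T, ‖F s - Fb s‖ ^ 2) (‖Phi hp2 T g.1 - hnb.toLp _‖ ^ 2) < c} := by
    rw [mem_ofPred_eq, ← phi_sub hp2 T ν f.1 hnb]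
    exact h4
  refine mem_of_superset (ho.mem_nhds hm) ?_
  intro g hg
  refine ⟨nb, Fb, xb0, ub, zb, ub1, zb1, Z, D, S, h1, h2, h3, ?_⟩
  rw [phi_sub hp2 T ν g.1 hnb]
  exact hg

theorem uv_dense (Fr : Frame W m C) (hν : 0 < ν) (hT : 0 < T)
    (hcomp : ∀ R : ℝ, TotallyBounded {v : H | ∃ z, (v, z) ∈ W ∧ ‖z‖ ≤ R})
    {F : ℝ → K} (hF : MemLp F 2 (volume.restrict (Ioc 0 T))) {x0 : H}
    (hx0 : x0 ∈ closure {x : H | ∃ y, (x, y) ∈ W})
    (hp5 : p ≤ 5) {c : ℝ} (hc0 : 0 < c) :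
    Dense (UV (p := p) W m C ν T F x0 c) := by
  rw [Metric.dense_iff]
  intro f r hr
  have hp1 : 1 ≤ p := Fact.out
  have hptop : p ≠ ⊤ := ne_top_of_le_ne_top (by norm_num) hp5
  have hp0 : 0 < p.toReal := ENNReal.toReal_pos (by
    intro h; rw [h] at hp1; exact absurd hp1 (by norm_num)) hptop
  set n : ℝ → ℝ := fun s => ν + f.1 s with hn_def
  have hn : MemLp n p (volume.restrict (Ioc 0 T)) := memLp_n f T ν
  have hlow : ∀ᵐ s ∂(volume.restrict (Ioc 0 T)), ν ≤ n s := low_n f T ν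
  -- the constant of the embedding
  set κ : ℝ≥0∞ := (volume.restrict (Ioc 0 T) : Measure ℝ) univ
    ^ (1 / p.toReal - 1 / (5 : ℝ≥0∞).toReal) with hκ
  have hκtop : κ ≠ ⊤ := by
    rw [hκ]
    refine ENNReal.rpow_ne_top_of_nonneg ?_ (measure_ne_top _ _)
    have : p.toReal ≤ (5 : ℝ≥0∞).toReal := ENNReal.toReal_mono (by norm_num) hp5
    have := one_div_le_one_div_of_le hp0 this
    linarith
  set κr : ℝ := κ.toReal with hκr
  have hκr0 : 0 ≤ κr := ENNReal.toReal_nonneg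
  have hκe : κ = ENNReal.ofReal κr := (ENNReal.ofReal_toReal hκtop).symm
  set η : ℝ := r / (4 * (κr + 1)) with hη
  have hη0 : 0 < η := by positivity
  have hfive : ∀ f : ℝ → ℝ, AEStronglyMeasurable f (volume.restrict (Ioc 0 T)) →
      eLpNorm f 5 (volume.restrict (Ioc 0 T)) ≤ ENNReal.ofReal η →
      eLpNorm f p (volume.restrict (Ioc 0 T)) ≤ ENNReal.ofReal (r / 4) := by
    intro f hf hf5
    refine (eLpNorm_le_five hp5 hf).trans ?_
    rw [← hκ, hκe]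
    calc eLpNorm f 5 (volume.restrict (Ioc 0 T)) * ENNReal.ofReal κr
        ≤ ENNReal.ofReal η * ENNReal.ofReal κr := by gcongr
      _ = ENNReal.ofReal (η * κr) := (ENNReal.ofReal_mul hη0.le).symm
      _ ≤ _ := by
          refine ENNReal.ofReal_le_ofReal ?_
          rw [hη, div_mul_eq_mul_div, div_le_div_iff₀ (by positivity) (by norm_num)]
          nlinarith
  -- smooth approximation of the viscosity
  obtain ⟨g, hg1, hg2, hg3⟩ := hn.exist_eLpNorm_sub_le hptop hp1 (ε := r / 4) (by positivity)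
  obtain ⟨Bg, hBg⟩ := ContDiff.lipschitzWith_of_hasCompactSupport hg1 (hg2.of_le (m := 1) (by
    exact_mod_cast le_top)) (by norm_num)
  let n1 : ℝ → ℝ := fun t => max (g t) ν
  have hn1c : Continuous n1 := hg2.continuous.max continuous_const
  have N : Base n1 ν T Bg := by
    refine ⟨Bg.coe_nonneg, fun t _ => le_max_right _ _, fun s _ t _ => ?_⟩
    have h1 : |n1 s - n1 t| ≤ |g s - g t| := by
      have := abs_max_sub_max_le_max (g s) ν (g t) ν
      simpa using this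
    have h2 := hBg.dist_le_mul s t
    rw [Real.dist_eq, Real.dist_eq] at h2
    exact h1.trans h2
  have hn1n : eLpNorm (n1 - n) p (volume.restrict (Ioc 0 T)) ≤ ENNReal.ofReal (r / 4) := by
    refine le_trans (eLpNorm_mono_ae ?_) hg3
    filter_upwards [hlow] with s hs
    show ‖max (g s) ν - n s‖ ≤ ‖n s - g s‖
    rw [norm_sub_rev (n s)]
    have := abs_max_sub_max_le_max (g s) ν (n s) ν
    rw [max_eq_left hs] at this
    simpa using this
  obtain ⟨D, hD0, hall⟩ := strong_rough Fr hν hT hcomp N hF hx0 hη0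
  -- the accuracy
  set K0 : ℝ := kc ν (64 * C ^ 2 * D) with hK0
  have hK2 : 2 ≤ K0 := two_le_kc hν (by positivity)
  set δ : ℝ := min 1 (c / (2 * K0 * (1 + 2 / ν))) with hδ
  have hδ0 : 0 < δ := lt_min one_pos (by positivity)
  obtain ⟨nb, Fb, xb0, ub, zb, ub1, zb1, Z, S, hnlow, hZ, hD, hxx, hFF, h5⟩ := hall δ hδ0
  have hnear : eLpNorm (fun s => nb s - (ν + f.1 s)) p (volume.restrict (Ioc 0 T))
      ≤ ENNReal.ofReal (r / 2) := by
    have hm2 : AEStronglyMeasurable (nb - n1) (volume.restrict (Ioc 0 T)) :=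
      (mem_cont (p := 1) (S.nc.sub hn1c.continuousOn)).aestronglyMeasurable
    have hm1 : AEStronglyMeasurable (n1 - n) (volume.restrict (Ioc 0 T)) :=
      hn1c.aestronglyMeasurable.sub hn.aestronglyMeasurable
    have e : (fun s => nb s - (ν + f.1 s)) = (nb - n1) + (n1 - n) := by
      ext t; simp only [Pi.sub_apply, Pi.add_apply, hn_def]; ring
    rw [e]
    calc eLpNorm ((nb - n1) + (n1 - n)) p (volume.restrict (Ioc 0 T))
        ≤ eLpNorm (nb - n1) p (volume.restrict (Ioc 0 T))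
          + eLpNorm (n1 - n) p (volume.restrict (Ioc 0 T)) := eLpNorm_add_le hm2 hm1 hp1
      _ ≤ ENNReal.ofReal (r / 4) + ENNReal.ofReal (r / 4) := add_le_add (hfive _ hm2 h5) hn1n
      _ = ENNReal.ofReal (r / 2) := by
          rw [← ENNReal.ofReal_add (by positivity) (by positivity)]
          congr 1; ring
  -- the perturbation
  set h : ℝ → ℝ := (Ioc 0 T).indicator (fun s => nb s - (ν + f.1 s)) with hh
  have hm0 : MemLp (fun s => nb s - (ν + f.1 s)) p (volume.restrict (Ioc 0 T)) :=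
    (mem_cont S.nc).sub (memLp_n f T ν)
  have hmv : MemLp h p volume := by
    rw [hh, memLp_indicator_iff_restrict measurableSet_Ioc]
    exact hm0
  have hm : MemLp h p (volume.restrict (Ioi (0 : ℝ))) := hmv.mono_measure Measure.restrict_le_self
  let g' : Lp ℝ p (volume.restrict (Ioi (0 : ℝ)) : Measure ℝ) := f.1 + hm.toLp h
  have hgc : ∀ᵐ s ∂(volume.restrict (Ioi (0 : ℝ))), g' s = f.1 s + h s := by
    filter_upwards [Lp.coeFn_add f.1 (hm.toLp h), hm.coeFn_toLp] with s h1 h2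
    show (f.1 + hm.toLp h : Lp ℝ p (volume.restrict (Ioi (0 : ℝ)) : Measure ℝ)) s = _
    rw [h1, Pi.add_apply, h2]
  have hgT : ∀ᵐ s ∂(volume.restrict (Ioc 0 T)), ν + g' s = nb s := by
    filter_upwards [ae_mono (le_mu T) hgc, ae_restrict_mem measurableSet_Ioc] with s h1 h2
    rw [h1, hh, indicator_of_mem h2]
    ring
  have hg0 : ∀ᵐ s ∂(volume.restrict (Ioi (0 : ℝ))), 0 ≤ g' s := by
    filter_upwards [hgc, f.2] with s h1 h2
    rw [h1, hh]
    by_cases hs : s ∈ Ioc 0 T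
    · rw [indicator_of_mem hs]
      have := hnlow s (Ioc_subset_Icc_self hs)
      linarith
    · rw [indicator_of_notMem hs]
      linarith
  refine ⟨⟨g', hg0⟩, ?_, ?_⟩
  · rw [mem_ball, Subtype.dist_eq, dist_eq_norm]
    show ‖g' - f.1‖ < r
    have e1 : g' - f.1 = hm.toLp h := by show f.1 + hm.toLp h - f.1 = _; abel
    rw [e1, Lp.norm_toLp]
    have e2 : eLpNorm h p (volume.restrict (Ioi (0 : ℝ))) ≤ ENNReal.ofReal (r / 2) := by
      refine (eLpNorm_mono_measure h Measure.restrict_le_self).trans ?_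
      rw [hh, eLpNorm_indicator_eq_eLpNorm_restrict measurableSet_Ioc]
      exact hnear
    calc (eLpNorm h p (volume.restrict (Ioi (0 : ℝ)))).toReal ≤ r / 2 :=
          ENNReal.toReal_le_of_le_ofReal (by positivity) e2
      _ < r := by linarith
  · refine ⟨nb, Fb, xb0, ub, zb, ub1, zb1, Z, D, S, hnlow, hZ, hD, ?_⟩
    have e3 : ∫ s in Ioc 0 T, ‖(ν + g' s) - nb s‖ ^ 2 = 0 := by
      refine integral_eq_zero_of_ae ?_
      filter_upwards [hgT] with s hs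
      show ‖(ν + g' s) - nb s‖ ^ 2 = 0
      rw [hs]; simp
    show psi C ν T Z D ‖x0 - xb0‖ (∫ s in Ioc 0 T, ‖F s - Fb s‖ ^ 2)
      (∫ s in Ioc 0 T, ‖(ν + g' s) - nb s‖ ^ 2) < c
    rw [e3]
    have e4 : psi C ν T Z D ‖x0 - xb0‖ (∫ s in Ioc 0 T, ‖F s - Fb s‖ ^ 2) 0
        = K0 * (‖x0 - xb0‖ ^ 2 / 2 + 2 / ν * (∫ s in Ioc 0 T, ‖F s - Fb s‖ ^ 2)) := by
      unfold psi wb
      rw [hK0]
      simp
    rw [e4]
    have hδ1 : δ ≤ 1 := min_le_left _ _
    have h6 : ‖x0 - xb0‖ ^ 2 / 2 ≤ δ := by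
      have h7 : ‖x0 - xb0‖ ^ 2 ≤ δ ^ 2 := by gcongr
      nlinarith
    have h8 : K0 * (‖x0 - xb0‖ ^ 2 / 2 + 2 / ν * (∫ s in Ioc 0 T, ‖F s - Fb s‖ ^ 2))
        ≤ K0 * (δ + 2 / ν * δ) := by gcongr
    have h9 : K0 * (δ + 2 / ν * δ) ≤ c / 2 := by
      calc K0 * (δ + 2 / ν * δ) = K0 * (1 + 2 / ν) * δ := by ring
        _ ≤ K0 * (1 + 2 / ν) * (c / (2 * K0 * (1 + 2 / ν))) := by
            gcongr
            exact min_le_right _ _
        _ = c / 2 := by field_simp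
    linarith

/-- **Generic viscosities for rough data.** -/
theorem generic_rough (Fr : Frame W m C) (hν : 0 < ν)
    (hcomp : ∀ R : ℝ, TotallyBounded {v : H | ∃ z, (v, z) ∈ W ∧ ‖z‖ ≤ R})
    {F : ℝ → K} (hF : ∀ T, 0 < T → MemLp F 2 (volume.restrict (Ioc 0 T))) {x0 : H}
    (hx0 : x0 ∈ closure {x : H | ∃ y, (x, y) ∈ W})
    (hp2 : 2 ≤ p) (hp5 : p ≤ 5) :
    ∃ R : Set (XX p), IsGδ R ∧ Dense R ∧ ∀ f ∈ R, ∀ T, 0 < T →
      ∃ (u : ℝ → H) (z : ℝ → K), WP W m ν T (fun s => ν + f.1 s) F x0 u z := by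
  let R : Set (XX p) := ⋂ jk : ℕ × ℕ, UV (p := p) W m C ν ((jk.1 : ℝ) + 1) F x0
    (1 / ((jk.2 : ℝ) + 1))
  have ho : ∀ jk : ℕ × ℕ, IsOpen (UV (p := p) W m C ν ((jk.1 : ℝ) + 1) F x0
      (1 / ((jk.2 : ℝ) + 1))) := fun jk => uv_open hp2
  have hd : ∀ jk : ℕ × ℕ, Dense (UV (p := p) W m C ν ((jk.1 : ℝ) + 1) F x0
      (1 / ((jk.2 : ℝ) + 1))) := fun jk =>
    uv_dense Fr hν (by positivity) hcomp (hF _ (by positivity)) hx0 hp5 (by positivity)
  refine ⟨R, IsGδ.iInter_of_isOpen ho, dense_iInter_of_isOpen ho hd, ?_⟩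
  intro f hf T hT
  have hTj : T ≤ ((⌈T⌉₊ : ℕ) : ℝ) + 1 := (Nat.le_ceil T).trans (by linarith)
  set T' : ℝ := ((⌈T⌉₊ : ℕ) : ℝ) + 1 with hT'
  have hT'0 : 0 < T' := hT.trans_le hTj
  refine core' Fr hν hT ⟨(memLp_n f T ν).mono_exponent hp2, low_n f T ν, hF T hT⟩ ?_
  intro k
  have hfk : f ∈ UV (p := p) W m C ν T' F x0 (1 / ((k : ℝ) + 1)) :=
    mem_iInter.mp hf (⌈T⌉₊, k)
  obtain ⟨nb, Fb, xb0, ub, zb, ub1, zb1, Z, D, S, h1, h2, h3, h4⟩ := hfk
  have hsubm : (Ioc 0 T : Set ℝ) ⊆ Ioc 0 T' := Ioc_subset_Ioc_right hTj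
  have i1 := sq_int (hF T' hT'0) (mem_cont (p := 2) S.Fc)
  have i2 : Integrable (fun s => ‖(ν + f.1 s) - nb s‖ ^ 2) (volume.restrict (Ioc 0 T')) :=
    sq_int ((memLp_n f T' ν).mono_exponent hp2) (mem_cont (p := 2) S.nc)
  have i3 := (mem_cont (p := 1) (wt_cont hν S h1)).integrable le_rfl
  have hD0 : 0 ≤ D := (D_nonneg hν h1).trans h3
  refine ⟨nb, Fb, xb0, ub, zb, ub1, zb1, Z, D, st_mono hTj S,
    fun t ht => h1 t ⟨ht.1, ht.2.trans hTj⟩, h2, ?_, lt_of_le_of_lt ?_ h4⟩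
  · refine le_trans (setIntegral_mono_set i3 ?_ hsubm.eventuallyLE) h3
    filter_upwards [ae_restrict_mem measurableSet_Ioc] with s hs
    have : 0 < nb s := hν.trans_le (h1 s (Ioc_subset_Icc_self hs))
    show 0 ≤ ‖zb s‖ ^ 4 / nb s ^ 3
    positivity
  · refine psi_mono hν hD0 hT.le hTj (integral_nonneg fun s => by positivity) ?_
      (integral_nonneg fun s => by positivity) ?_
    · exact setIntegral_mono_set i1 (Eventually.of_forall fun s => by positivity)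
        hsubm.eventuallyLE
    · exact setIntegral_mono_set i2 (Eventually.of_forall fun s => by positivity)
        hsubm.eventuallyLE

end Pool.Agent.H319R3.GW
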