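import Mathlib
import Pool.Agent.H319R3.GV.Pub

/-!
Public definitions: Leray-Hopf solutions of the Navier-Stokes equations with a time dependent
viscosity and a force in `L²(0,T; L²)`, well-posedness in the class of Leray-Hopf solutions.
-/

open MeasureTheory Set
open scoped InnerProductSpace ENNReal ContDiff

namespace Pool.Agent.H319R3.GW.Pub

open H772R2.NS.Pub

/-- `u` is a Leray-Hopf weak solution on `[0,T]` of the Navier-Stokes equations in `Ω` with zero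
boundary values, viscosity `n(t)`, force `f(t)` and initial velocity `u0`, `G` is its gradient:
* `u(t) ∈ H¹_{0,σ}(Ω)` with gradient `G(t)` for almost every `t`, `G ∈ L²(0,T; L²)` and
  `∫₀ᵀ n ‖G‖² < ∞`;
* for all divergence free test fields `φ` and all `t ∈ [0,T]`,
  `(u(t), φ) - (u0, φ) = ∫₀ᵗ ((u, (u·∇)φ) - n (∇u, ∇φ) + (f, φ)) ds`;
* the energy inequality holds at every `t ∈ [0,T]`. -/
structure IsLerayHopf (Ω : Set R3) (T : ℝ) (n : ℝ → ℝ) (f : ℝ → L2 Ω R3) (u0 : L2 Ω R3)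
    (u : ℝ → L2 Ω R3) (G : ℝ → L2 Ω Mat) : Prop where
  init : u 0 = u0
  meas : AEStronglyMeasurable u (volume.restrict (Ioc 0 T))
  grad : ∀ᵐ t ∂(volume.restrict (Ioc 0 T)), (u t, G t) ∈ H1graph Ω
  gradL2 : MemLp G 2 (volume.restrict (Ioc 0 T))
  diss : Integrable (fun t => n t * ‖G t‖ ^ 2) (volume.restrict (Ioc 0 T))
  eqn : ∀ φ, IsTest Ω φ → ∀ t ∈ Icc 0 T,
    (∫ x in Ω, ⟪(u t).fn x, φ x⟫_ℝ) - (∫ x in Ω, ⟪u0.fn x, φ x⟫_ℝ)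
      = ∫ s in (0 : ℝ)..t, integrand (n s) (u s) (G s) (f s) φ 1 0
  energy : ∀ t ∈ Icc 0 T, ‖u t‖ ^ 2 / 2 + ∫ s in (0 : ℝ)..t, n s * ‖G s‖ ^ 2
    ≤ ‖u0‖ ^ 2 / 2 + ∫ s in (0 : ℝ)..t, ⟪f s, u s⟫_ℝ

/-- The energy defect: right-hand side minus left-hand side of the energy inequality. -/
noncomputable def defect {Ω : Set R3} (n : ℝ → ℝ) (f : ℝ → L2 Ω R3) (u0 : L2 Ω R3)
    (u : ℝ → L2 Ω R3) (G : ℝ → L2 Ω Mat) (t : ℝ) : ℝ :=
  ‖u0‖ ^ 2 / 2 + (∫ s in (0 : ℝ)..t, ⟪f s, u s⟫_ℝ) - ‖u t‖ ^ 2 / 2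
    - ∫ s in (0 : ℝ)..t, n s * ‖G s‖ ^ 2

/-- Admissible coefficients: the viscosity `n ∈ L²(0,T)` is at least `ν` and `f ∈ L²(0,T; L²)`. -/
structure IsCoef {Ω : Set R3} (ν T : ℝ) (n : ℝ → ℝ) (f : ℝ → L2 Ω R3) : Prop where
  visc : MemLp n 2 (volume.restrict (Ioc 0 T))
  low : ∀ᵐ t ∂(volume.restrict (Ioc 0 T)), ν ≤ n t
  force : MemLp f 2 (volume.restrict (Ioc 0 T))

/-- The data `(n', f', u0')` are `δ`-close to `(n, f, u0)` on `[0,T]`. -/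
structure DataNear {Ω : Set R3} (T δ : ℝ) (n : ℝ → ℝ) (f : ℝ → L2 Ω R3) (u0 : L2 Ω R3)
    (n' : ℝ → ℝ) (f' : ℝ → L2 Ω R3) (u0' : L2 Ω R3) : Prop where
  init : ‖u0' - u0‖ ≤ δ
  force : ∫ t in Ioc 0 T, ‖f' t - f t‖ ^ 2 ≤ δ
  visc : ∫ t in Ioc 0 T, |n' t - n t| ^ 2 ≤ δ

/-- Every Leray-Hopf solution for nearby data (viscosity `≥ ν`, close in `L²(0,T)`, force in
`L²(0,T; L²)`, initial velocity in `L²`) is close to `u` in `L^∞(0,T; L²) ∩ L²(0,T; H¹₀)`, and its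
energy defect is small. -/
def Stable (Ω : Set R3) (ν T : ℝ) (n : ℝ → ℝ) (f : ℝ → L2 Ω R3) (u0 : L2 Ω R3)
    (u : ℝ → L2 Ω R3) (G : ℝ → L2 Ω Mat) : Prop :=
  ∀ ε : ℝ, 0 < ε → ∃ δ : ℝ, 0 < δ ∧ ∀ (n' : ℝ → ℝ) (f' : ℝ → L2 Ω R3)
    (u0' : L2 Ω R3) (u' : ℝ → L2 Ω R3) (G' : ℝ → L2 Ω Mat), IsCoef ν T n' f' →
    IsLerayHopf Ω T n' f' u0' u' G' → DataNear T δ n f u0 n' f' u0' →
    GV.Pub.SolNear T ε u G u' G' ∧ ∀ t ∈ Icc 0 T, defect n' f' u0' u' G' t ≤ ε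

/-- Hadamard well-posedness on `[0,T]` in the class of Leray-Hopf solutions, for the viscosity `n`,
the force `f` and the initial velocity `u0`, with solution `u`, `G = ∇u`:
* `u` is a Leray-Hopf solution, continuous with values in `L²_σ`, with energy equality;
* it is the only Leray-Hopf solution;
* it depends continuously on the data. -/
structure WellPosed (Ω : Set R3) (ν T : ℝ) (n : ℝ → ℝ) (f : ℝ → L2 Ω R3) (u0 : L2 Ω R3)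
    (u : ℝ → L2 Ω R3) (G : ℝ → L2 Ω Mat) : Prop where
  sol : IsLerayHopf Ω T n f u0 u G
  sigma : ∀ t ∈ Icc 0 T, u t ∈ L2sigma Ω
  cont : ContinuousOn u (Icc 0 T)
  energyEq : ∀ t ∈ Icc 0 T, defect n f u0 u G t = 0
  unique : ∀ (u' : ℝ → L2 Ω R3) (G' : ℝ → L2 Ω Mat), IsLerayHopf Ω T n f u0 u' G' →
    (∀ t ∈ Icc 0 T, u' t = u t) ∧ ∀ᵐ t ∂(volume.restrict (Ioc 0 T)), G' t = G t
  stable : Stable Ω ν T n f u0 u G

/-- There is a well-posed solution, see `WellPosed`. -/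
def IsWellPosed (Ω : Set R3) (ν T : ℝ) (n : ℝ → ℝ) (f : ℝ → L2 Ω R3) (u0 : L2 Ω R3) : Prop :=
  ∃ (u : ℝ → L2 Ω R3) (G : ℝ → L2 Ω Mat), WellPosed Ω ν T n f u0 u G

end Pool.Agent.H319R3.GW.Pub
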