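import Mathlib
import Pool.Agent.H319R3.GW.Baire

/-!
Forces in `H` as forces in `K`.
-/

set_option linter.unusedSectionVars false

open MeasureTheory Set Filter Topology Metric
open scoped InnerProductSpace NNReal ENNReal

namespace Pool.Agent.H319R3.GW

open H772R2.NSR (Frame grad_unique prim_cont)
open H772R2.NSG
open Pool.Agent.H319R3.GV

variable {H K : Type*} [NormedAddCommGroup H] [InnerProductSpace ℝ H] [CompleteSpace H]
  [NormedAddCommGroup K] [InnerProductSpace ℝ K] [CompleteSpace K]

variable {W : Submodule ℝ (H × K)} {m : H → K} {C : ℝ}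

theorem exists_riesz (Fr : Frame W m C) :
    ∃ R : H →L[ℝ] K, ∀ h : H, ∀ p ∈ W, ⟪R h, p.2⟫_ℝ = ⟪h, p.1⟫_ℝ := by
  have hWc : CompleteSpace W := Fr.closedW.completeSpace_coe
  let g : W →L[ℝ] K := (ContinuousLinearMap.snd ℝ H K).comp W.subtypeL
  have hg : ∀ p : W, g p = (p : H × K).2 := fun p => rfl
  have hb : ∀ p : W, ‖p‖ ≤ ((max C 1).toNNReal : ℝ) * ‖g p‖ := by
    intro p
    have h1 := Fr.poinc p p.2
    have h2 : ‖p‖ = max ‖(p : H × K).1‖ ‖(p : H × K).2‖ := rfl
    rw [h2, hg, Real.coe_toNNReal _ (le_trans zero_le_one (le_max_right _ _))]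
    refine max_le (h1.trans ?_) ?_
    · gcongr; exact le_max_left _ _
    · have : ‖(p : H × K).2‖ = 1 * ‖(p : H × K).2‖ := (one_mul _).symm
      rw [this]
      gcongr
      · exact le_max_right _ _
      · rw [one_mul]
  have ha : AntilipschitzWith (max C 1).toNNReal g := AddMonoidHomClass.antilipschitz_of_bound g hb
  have hclo : IsClosed (Set.range g) := ha.isClosed_range g.uniformContinuous
  have hcr : CompleteSpace g.range := hclo.completeSpace_coe
  let e := g.equivRange ha.injective hclo
  let S : g.range →L[ℝ] H := ((ContinuousLinearMap.fst ℝ H K).comp W.subtypeL).comp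
    (e.symm : g.range →L[ℝ] W)
  let T : K →L[ℝ] H := S.comp g.range.orthogonalProjectionOnto
  refine ⟨ContinuousLinearMap.adjoint T, fun h p hp => ?_⟩
  rw [ContinuousLinearMap.adjoint_inner_left]
  have h1 : T p.2 = p.1 := by
    have h2 : g.range.orthogonalProjectionOnto p.2 = ⟨g ⟨p, hp⟩, by simp⟩ := by
      have := Submodule.orthogonalProjectionOnto_mem_subspace_eq_self
        (⟨g ⟨p, hp⟩, by simp⟩ : g.range)
      exact this
    show ((e.symm (g.range.orthogonalProjectionOnto p.2) : W) : H × K).1 = p.1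
    rw [h2, ContinuousLinearMap.equivRange_symm_apply]
  rw [h1]

end Pool.Agent.H319R3.GW
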