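import Mathlib
import Pool.Agent.H319R3.GW.Riesz
import Pool.Agent.H319R3.GW.Pub
import Pool.Agent.H319R3.GV.Bridge

/-!
The public definitions agree with the abstract ones.
-/

set_option linter.unusedSectionVars false

open MeasureTheory Set Filter Topology Metric
open scoped InnerProductSpace NNReal ENNReal ContDiff

namespace Pool.Agent.H319R3.GW

open H772R2.NS H772R2.NS.Pub H772R2.NSR
open H772R2.NSG (LH St Coef dft int_smul ii_of_int)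
open Pool.Agent.H319R3.GV (XX WP wp_pub coef_n memLp_n low_n)

variable {Ω : Set E3} {ν T : ℝ} {n : ℝ → ℝ} {f : ℝ → L2V Ω} {u0 : L2V Ω} {u : ℝ → L2V Ω}
  {G : ℝ → L2M Ω} {R : L2V Ω →L[ℝ] L2M Ω}

theorem integrand_eq (hR : ∀ h : L2V Ω, ∀ p ∈ graphW Ω, ⟪R h, p.2⟫_ℝ = ⟪h, p.1⟫_ℝ)
    {φ : E3 → E3} (hφ : Pub.IsTest (Ω : Set R3) φ) (a : ℝ) (v : L2V Ω) (z : L2M Ω) (g : L2V Ω) :
    Pub.integrand (Ω := (Ω : Set R3)) a v z g φ 1 0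
      = Pub.rhs (Ω := (Ω : Set R3)) a v z (R g) φ := by
  obtain ⟨p, hp, hp1, hp2⟩ := exists_pair (Ω := (Ω : Set R3)) ((isTest_iff φ).mp hφ)
  have e1 := pub_inner (Ω := (Ω : Set R3)) g hp1
  have e2 := pub_inner_jac (Ω := (Ω : Set R3)) (R g) hp2
  have e3 := (e2.trans (hR g p hp)).trans e1.symm
  unfold Pub.integrand Pub.rhs
  rw [e3]
  ring

theorem pow_eq (hR : ∀ h : L2V Ω, ∀ p ∈ graphW Ω, ⟪R h, p.2⟫_ℝ = ⟪h, p.1⟫_ℝ)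
    (hgr : ∀ᵐ s ∂(volume.restrict (Ioc 0 T)), (u s, G s) ∈ graphW Ω) {t : ℝ} (ht : t ∈ Icc 0 T) :
    ∫ s in (0 : ℝ)..t, ⟪R (f s), G s⟫_ℝ = ∫ s in (0 : ℝ)..t, ⟪f s, u s⟫_ℝ := by
  rw [intervalIntegral.integral_of_le ht.1, intervalIntegral.integral_of_le ht.1]
  refine integral_congr_ae ?_
  filter_upwards [ae_mono (Measure.restrict_mono (Ioc_subset_Ioc_right ht.2) le_rfl) hgr]
    with s hs
  exact hR (f s) (u s, G s) hs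

theorem to_F (hR : ∀ h : L2V Ω, ∀ p ∈ graphW Ω, ⟪R h, p.2⟫_ℝ = ⟪h, p.1⟫_ℝ)
    (L : Pub.IsLerayHopf (Ω : Set R3) T n f u0 u G) :
    GV.Pub.IsLerayHopf (Ω : Set R3) T n (fun s => R (f s)) u0 u G := by
  have hgr : ∀ᵐ t ∂(volume.restrict (Ioc 0 T)), (u t, G t) ∈ graphW Ω := by
    filter_upwards [L.grad] with t ht
    exact mem_pub.mpr ht
  refine ⟨L.init, L.meas, L.grad, L.gradL2, L.diss, fun φ hφ t ht => ?_, fun t ht => ?_⟩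
  · refine (L.eqn φ hφ t ht).trans ?_
    refine intervalIntegral.integral_congr fun s _ => ?_
    exact integrand_eq hR hφ (n s) (u s) (G s) (f s)
  · have h1 := L.energy t ht
    have h2 := pow_eq (f := f) hR hgr ht
    exact h1.trans (le_of_eq (congrArg (fun x => ‖u0‖ ^ 2 / 2 + x) h2.symm))

theorem of_F (hR : ∀ h : L2V Ω, ∀ p ∈ graphW Ω, ⟪R h, p.2⟫_ℝ = ⟪h, p.1⟫_ℝ)
    (L : GV.Pub.IsLerayHopf (Ω : Set R3) T n (fun s => R (f s)) u0 u G) :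
    Pub.IsLerayHopf (Ω : Set R3) T n f u0 u G := by
  have hgr : ∀ᵐ t ∂(volume.restrict (Ioc 0 T)), (u t, G t) ∈ graphW Ω := by
    filter_upwards [L.grad] with t ht
    exact mem_pub.mpr ht
  refine ⟨L.init, L.meas, L.grad, L.gradL2, L.diss, fun φ hφ t ht => ?_, fun t ht => ?_⟩
  · refine (L.eqn φ hφ t ht).trans ?_
    refine intervalIntegral.integral_congr fun s _ => ?_
    exact (integrand_eq hR hφ (n s) (u s) (G s) (f s)).symm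
  · have h1 := L.energy t ht
    have h2 := pow_eq (f := f) hR hgr ht
    exact h1.trans (le_of_eq (congrArg (fun x => ‖u0‖ ^ 2 / 2 + x) h2))

theorem defect_eq (hR : ∀ h : L2V Ω, ∀ p ∈ graphW Ω, ⟪R h, p.2⟫_ℝ = ⟪h, p.1⟫_ℝ)
    (hgr : ∀ᵐ s ∂(volume.restrict (Ioc 0 T)), (u s, G s) ∈ graphW Ω) {t : ℝ} (ht : t ∈ Icc 0 T) :
    Pub.defect (Ω := (Ω : Set R3)) n f u0 u G t
      = GV.Pub.defect (Ω := (Ω : Set R3)) n (fun s => R (f s)) u0 u G t := by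
  have h2 := pow_eq (f := f) hR hgr ht
  exact congrArg (fun x => ‖u0‖ ^ 2 / 2 + x - ‖u t‖ ^ 2 / 2
    - ∫ s in (0 : ℝ)..t, n s * ‖G s‖ ^ 2) h2.symm

theorem force_small {f' : ℝ → L2V Ω} (hf : MemLp f 2 (volume.restrict (Ioc 0 T)))
    (hf' : MemLp f' 2 (volume.restrict (Ioc 0 T))) {δ : ℝ}
    (h3 : ∫ t in Ioc 0 T, ‖f' t - f t‖ ^ 2 ≤ δ / (‖R‖ ^ 2 + 1)) :
    ∫ t in Ioc 0 T, ‖R (f' t) - R (f t)‖ ^ 2 ≤ δ := by
  have hc : 0 < ‖R‖ ^ 2 + 1 := by positivity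
  have hRf' : MemLp (fun s => R (f' s)) 2 (volume.restrict (Ioc 0 T)) := R.comp_memLp' hf'
  have hRf : MemLp (fun s => R (f s)) 2 (volume.restrict (Ioc 0 T)) := R.comp_memLp' hf
  have h1 : ∫ t in Ioc 0 T, ‖R (f' t) - R (f t)‖ ^ 2
      ≤ ∫ t in Ioc 0 T, (‖R‖ ^ 2 + 1) * ‖f' t - f t‖ ^ 2 := by
    refine integral_mono (GV.sq_int hRf' hRf) ((GV.sq_int hf' hf).const_mul _) fun s => ?_
    show ‖R (f' s) - R (f s)‖ ^ 2 ≤ (‖R‖ ^ 2 + 1) * ‖f' s - f s‖ ^ 2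
    rw [← map_sub]
    have h2 : ‖R (f' s - f s)‖ ≤ ‖R‖ * ‖f' s - f s‖ := R.le_opNorm _
    calc ‖R (f' s - f s)‖ ^ 2 ≤ (‖R‖ * ‖f' s - f s‖) ^ 2 := by gcongr
      _ = ‖R‖ ^ 2 * ‖f' s - f s‖ ^ 2 := by ring
      _ ≤ _ := by gcongr; linarith
  rw [integral_const_mul] at h1
  refine h1.trans ?_
  calc (‖R‖ ^ 2 + 1) * ∫ t in Ioc 0 T, ‖f' t - f t‖ ^ 2
      ≤ (‖R‖ ^ 2 + 1) * (δ / (‖R‖ ^ 2 + 1)) := by gcongr
    _ = δ := by field_simp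

theorem wp_f (hR : ∀ h : L2V Ω, ∀ p ∈ graphW Ω, ⟪R h, p.2⟫_ℝ = ⟪h, p.1⟫_ℝ)
    (hf : MemLp f 2 (volume.restrict (Ioc 0 T)))
    (P : GV.Pub.WellPosed (Ω : Set R3) ν T n (fun s => R (f s)) u0 u G) :
    Pub.WellPosed (Ω : Set R3) ν T n f u0 u G := by
  have hgr : ∀ᵐ t ∂(volume.restrict (Ioc 0 T)), (u t, G t) ∈ graphW Ω := by
    filter_upwards [P.sol.grad] with t ht
    exact mem_pub.mpr ht
  refine ⟨of_F hR P.sol, P.sigma, P.cont, fun t ht => ?_, fun u' G' L' => ?_, fun ε hε => ?_⟩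
  · exact (defect_eq hR hgr ht).trans (P.energyEq t ht)
  · exact P.unique u' G' (to_F hR L')
  · obtain ⟨δ, hδ, hd⟩ := P.stable ε hε
    have hc : 0 < ‖R‖ ^ 2 + 1 := by positivity
    refine ⟨δ / (‖R‖ ^ 2 + 1), by positivity, fun n' f' u0' u' G' Co' L' D => ?_⟩
    have hle : δ / (‖R‖ ^ 2 + 1) ≤ δ := by
      rw [div_le_iff₀ hc]
      nlinarith [sq_nonneg ‖R‖]
    have hgr' : ∀ᵐ t ∂(volume.restrict (Ioc 0 T)), (u' t, G' t) ∈ graphW Ω := by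
      filter_upwards [L'.grad] with t ht
      exact mem_pub.mpr ht
    have hRf' : MemLp (fun s => R (f' s)) 2 (volume.restrict (Ioc 0 T)) :=
      R.comp_memLp' (f := (f' : ℝ → L2V Ω)) Co'.force
    have Co2 : GV.Pub.IsCoef (Ω := (Ω : Set R3)) ν T n' (fun s => R (f' s)) :=
      ⟨Co'.visc, Co'.low, hRf'⟩
    have hforce := force_small (R := R) (f' := (f' : ℝ → L2V Ω)) (δ := δ) hf Co'.force D.force
    have h := hd n' (fun s => R (f' s)) u0' u' G' Co2 (to_F hR L')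
      ⟨D.init.trans hle, hforce, D.visc.trans hle⟩
    exact ⟨h.1, fun t ht => (le_of_eq (defect_eq hR hgr' ht)).trans (h.2 t ht)⟩

theorem dom_dense {x : L2V Ω} (hx : x ∈ Pub.L2sigma (Ω : Set R3)) :
    x ∈ closure {x : L2V Ω | ∃ y, (x, y) ∈ graphW Ω} := by
  refine closure_mono ?_ hx
  rintro v ⟨φ, hφ, hv⟩
  obtain ⟨p, hp, hp1, hp2⟩ := exists_pair (Ω := (Ω : Set R3)) ((isTest_iff φ).mp hφ)
  have e : (v : L2V Ω) = p.1 := by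
    refine Lp.ext ?_
    have hv' : (v : L2V Ω) =ᵐ[volume.restrict (Ω : Set E3)] φ := hv
    exact hv'.trans hp1.symm
  exact ⟨p.2, by rw [e]; exact hp⟩

theorem rough_mid {Ω : Set E3} (hΩ : IsOpen Ω) (hb : Bornology.IsBounded Ω) {ν : ℝ}
    (hν : 0 < ν) {u0 : L2V Ω} (h0 : u0 ∈ Pub.L2sigma (Ω : Set R3))
    {f : ℝ → L2V Ω} (hf : ∀ T, 0 < T → MemLp f 2 (volume.restrict (Ioc 0 T)))
    {p : ℝ≥0∞} [Fact (1 ≤ p)] (hp2 : 2 ≤ p) (hp5 : p ≤ 5) :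
    ∃ R : Set (XX p), IsGδ R ∧ Dense R ∧ ∀ l ∈ R, ∀ T, 0 < T →
      ∃ (u : ℝ → L2V Ω) (G : ℝ → L2M Ω),
        Pub.WellPosed (Ω : Set R3) ν T (fun s => ν + l.1 s) f u0 u G := by
  obtain ⟨C, Fr⟩ := exists_frame hΩ hb
  obtain ⟨R, hR⟩ := exists_riesz Fr
  have hRf : ∀ T, 0 < T → MemLp (fun s => R (f s)) 2 (volume.restrict (Ioc 0 T)) :=
    fun T hT => R.comp_memLp' (hf T hT)
  obtain ⟨Q, hQ1, hQ2, hQ3⟩ := generic_rough (W := graphW Ω) (m := tensL)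
    (F := fun s => R (f s)) Fr hν (rellich_W hΩ hb) hRf (dom_dense h0) hp2 hp5
  refine ⟨Q, hQ1, hQ2, fun l hl T hT => ?_⟩
  obtain ⟨u, G, P⟩ := hQ3 l hl T hT
  have hCo : Coef ν T (fun s => ν + l.1 s) (fun s => R (f s)) :=
    ⟨(memLp_n l T ν).mono_exponent hp2, low_n l T ν, hRf T hT⟩
  exact ⟨u, G, wp_f hR (hf T hT) (wp_pub hΩ Fr hCo P)⟩

/-- Generic viscosities for rough data, in terms of the public definitions. -/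
theorem rough_pub {Ω : Set R3} (hΩ : IsOpen Ω) (hb : Bornology.IsBounded Ω) {ν : ℝ}
    (hν : 0 < ν) {u0 : L2 Ω R3} (h0 : u0 ∈ Pub.L2sigma Ω)
    {f : ℝ → L2 Ω R3} (hf : ∀ T, 0 < T → MemLp f 2 (volume.restrict (Ioc 0 T)))
    {p : ℝ≥0∞} [Fact (1 ≤ p)] (hp2 : 2 ≤ p) (hp5 : p ≤ 5) :
    ∃ R : Set (GV.Pub.Visc p), IsGδ R ∧ Dense R ∧ ∀ l ∈ R, ∀ T, 0 < T →
      Pub.IsWellPosed Ω ν T (fun s => ν + l.fn s) f u0 :=
  rough_mid (Ω := (Ω : Set E3)) (f := f) (u0 := u0) hΩ hb hν h0 hf hp2 hp5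

end Pool.Agent.H319R3.GW
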